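import Pool.Agent.Helper63.TN.Defs2

/-!
# Generators of the ideal of a curve
-/

set_option autoImplicit false

namespace Pool.Agent.Helper63.TN

open MvPolynomial
open Pool.Agent.Helper16 (Place IsFunctionField)
open Pool.Agent.Helper36 (step iter)
open Pool.Agent.Helper38.TQ
open Pool.Agent.Helper30.TKN

variable {ν : ℕ} {k K : Type} [Field k] [Field K] [Algebra k K]

theorem pull_zero_eq (F : Fin (ν + 1) → MvPolynomial (Fin (ν + 1)) K)
    (G : MvPolynomial (Fin (ν + 1)) K) : pull F 0 G = G := rfl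

theorem pull_succ_eq (F : Fin (ν + 1) → MvPolynomial (Fin (ν + 1)) K) (N : ℕ)
    (G : MvPolynomial (Fin (ν + 1)) K) : pull F (N + 1) G = aeval F (pull F N G) := by
  unfold pull
  rw [Function.iterate_succ_apply']

theorem aeval_pull (F : Fin (ν + 1) → MvPolynomial (Fin (ν + 1)) K) (N : ℕ)
    (G : MvPolynomial (Fin (ν + 1)) K) {L : Type} [Field L] [Algebra K L]
    (u : Fin (ν + 1) → L) : aeval u (pull F N G) = aeval (iter F u N) G := by
  induction N generalizing u with
  | zero => rfl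
  | succ N ih =>
    rw [pull_succ_eq, Pool.Agent.Helper36.iter_succ', ← ih]
    exact comp_aeval_apply F (aeval u) (pull F N G)

theorem pull_hom {d : ℕ} {F : Fin (ν + 1) → MvPolynomial (Fin (ν + 1)) K}
    (hF : ∀ i, (F i).IsHomogeneous d) (N : ℕ) {G : MvPolynomial (Fin (ν + 1)) K} {e : ℕ}
    (hG : G.IsHomogeneous e) : (pull F N G).IsHomogeneous (e * d ^ N) := by
  induction N with
  | zero =>
    rw [pow_zero, mul_one]
    exact hG
  | succ N ih =>
    rw [pull_succ_eq]
    have h := ih.aeval F hF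
    rwa [show d * (e * d ^ N) = e * d ^ (N + 1) by ring] at h

theorem pull_add (F : Fin (ν + 1) → MvPolynomial (Fin (ν + 1)) K) (N : ℕ)
    (G G' : MvPolynomial (Fin (ν + 1)) K) : pull F N (G + G') = pull F N G + pull F N G' := by
  induction N with
  | zero => rfl
  | succ N ih => rw [pull_succ_eq, pull_succ_eq, pull_succ_eq, ih, map_add]

theorem pull_mul (F : Fin (ν + 1) → MvPolynomial (Fin (ν + 1)) K) (N : ℕ)
    (G G' : MvPolynomial (Fin (ν + 1)) K) : pull F N (G * G') = pull F N G * pull F N G' := by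
  induction N with
  | zero => rfl
  | succ N ih => rw [pull_succ_eq, pull_succ_eq, pull_succ_eq, ih, map_mul]

theorem pull_zero_poly (F : Fin (ν + 1) → MvPolynomial (Fin (ν + 1)) K) (N : ℕ) :
    pull F N 0 = 0 := by
  induction N with
  | zero => rfl
  | succ N ih => rw [pull_succ_eq, ih, map_zero]

/-- The ideal of a curve is generated by finitely many nonzero forms. -/
theorem exists_gen {I : Ideal (MvPolynomial (Fin (ν + 1)) K)} (hI : IsCurve I) :
    ∃ (s : ℕ) (H : Fin s → MvPolynomial (Fin (ν + 1)) K) (E : Fin s → ℕ),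
      (∀ j, (H j).IsHomogeneous (E j) ∧ H j ∈ I ∧ H j ≠ 0) ∧ I = Ideal.span (Set.range H) := by
  classical
  obtain ⟨S, hS⟩ := (isNoetherianRing_iff_ideal_fg _).1
    (inferInstance : IsNoetherianRing (MvPolynomial (Fin (ν + 1)) K)) I
  have hSI : ∀ G ∈ S, G ∈ I := by
    intro G hG
    rw [← hS]
    exact Ideal.subset_span hG
  obtain ⟨T, hT⟩ : ∃ T : Finset (MvPolynomial (Fin (ν + 1)) K × ℕ), ∀ p, p ∈ T ↔
      (∃ G ∈ S, ∃ m ∈ Finset.range (G.totalDegree + 1), (homogeneousComponent m G, m) = p) ∧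
        p.1 ≠ 0 := by
    refine ⟨(S.biUnion fun G => (Finset.range (G.totalDegree + 1)).image
      fun m => (homogeneousComponent m G, m)).filter fun p => p.1 ≠ 0, fun p => ?_⟩
    rw [Finset.mem_filter, Finset.mem_biUnion]
    simp only [Finset.mem_image]
  have hH : ∀ p ∈ T, p.1.IsHomogeneous p.2 ∧ p.1 ∈ I ∧ p.1 ≠ 0 := by
    intro p hp
    obtain ⟨⟨G, hG, m, -, rfl⟩, h0⟩ := (hT p).1 hp
    exact ⟨homogeneousComponent_isHomogeneous m G, hI.hom G (hSI G hG) m, h0⟩
  refine ⟨T.card, fun j => (T.equivFin.symm j).1.1, fun j => (T.equivFin.symm j).1.2,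
    fun j => hH _ (T.equivFin.symm j).2, ?_⟩
  refine le_antisymm ?_ ?_
  · rw [← hS]
    refine Ideal.span_le.2 fun G hG => ?_
    change G ∈ Ideal.span (Set.range fun j : Fin T.card => (T.equivFin.symm j).1.1)
    rw [← sum_homogeneousComponent G]
    refine Ideal.sum_mem _ fun m hm => ?_
    by_cases h0 : homogeneousComponent m G = 0
    · rw [h0]
      exact Ideal.zero_mem _
    · refine Ideal.subset_span ?_
      have hmem : (homogeneousComponent m G, m) ∈ T := (hT _).2 ⟨⟨G, hG, m, hm, rfl⟩, h0⟩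
      refine ⟨T.equivFin ⟨_, hmem⟩, ?_⟩
      change (T.equivFin.symm (T.equivFin ⟨_, hmem⟩)).1.1 = _
      rw [Equiv.symm_apply_apply]
  · refine Ideal.span_le.2 ?_
    rintro _ ⟨j, rfl⟩
    exact (hH _ (T.equivFin.symm j).2).2.1

theorem on_iff {I : Ideal (MvPolynomial (Fin (ν + 1)) K)} {s : ℕ}
    {H : Fin s → MvPolynomial (Fin (ν + 1)) K} (h : I = Ideal.span (Set.range H)) {L : Type}
    [Field L] [Algebra K L] (u : Fin (ν + 1) → L) :
    OnI I u ↔ u ≠ 0 ∧ ∀ j, aeval u (H j) = 0 := by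
  refine and_congr_right fun _ => ⟨fun h1 j => h1 _ ?_, fun h1 G hG => ?_⟩
  · rw [h]
    exact Ideal.subset_span ⟨j, rfl⟩
  · have h2 : I ≤ RingHom.ker (aeval u : MvPolynomial (Fin (ν + 1)) K →ₐ[K] L) := by
      rw [h]
      refine Ideal.span_le.2 ?_
      rintro _ ⟨j, rfl⟩
      exact (RingHom.mem_ker).2 (h1 j)
    exact (RingHom.mem_ker).1 (h2 hG)

theorem gen_nonPer {I : Ideal (MvPolynomial (Fin (ν + 1)) K)} {s : ℕ}
    {H : Fin s → MvPolynomial (Fin (ν + 1)) K} (h : I = Ideal.span (Set.range H))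
    {F : Fin (ν + 1) → MvPolynomial (Fin (ν + 1)) K} (hnp : NonPer I F) (N : ℕ) (hN : 0 < N) :
    ∃ j, pull F N (H j) ∉ I := by
  by_contra hcon
  push Not at hcon
  obtain ⟨G, hG, e, -, hn⟩ := hnp N hN
  apply hn
  have key : ∀ G ∈ Ideal.span (Set.range H), pull F N G ∈ I := by
    intro G hG
    induction hG using Submodule.span_induction with
    | mem x hx =>
      obtain ⟨j, rfl⟩ := hx
      exact hcon j
    | zero => rw [pull_zero_poly]; exact I.zero_mem
    | add x y _ _ hx hy => rw [pull_add]; exact I.add_mem hx hy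
    | smul a x _ hx => rw [smul_eq_mul, pull_mul]; exact I.mul_mem_left _ hx
  exact key G (h ▸ hG)

end Pool.Agent.Helper63.TN
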