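import Pool.Agent.Helper63.TN.FinRel
import Pool.Agent.Helper63.TN.Gen

/-!
# The curve swept out by a sequence of points
-/

set_option autoImplicit false

namespace Pool.Agent.Helper63.TN

open MvPolynomial
open Pool.Agent.Helper16 (Place IsFunctionField)
open Pool.Agent.Helper36 (step iter)
open Pool.Agent.Helper38.TQ
open Pool.Agent.Helper30.TKN

variable {ν : ℕ} {k K : Type} [Field k] [Field K] [Algebra k K]

/-- The restriction of the polynomial `G` to the line spanned by `v`. -/
noncomputable def vanLine (v : Fin (ν + 1) → K) (G : MvPolynomial (Fin (ν + 1)) K) :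
    Polynomial K :=
  aeval (fun i => Polynomial.C (v i) * Polynomial.X) G

omit [Algebra k K] in
theorem eval_vanLine (v : Fin (ν + 1) → K) (G : MvPolynomial (Fin (ν + 1)) K) (c : K) :
    Polynomial.eval c (vanLine v G) = eval (c • v) G := by
  unfold vanLine
  induction G using MvPolynomial.induction_on with
  | C a => simp
  | add p q hp hq => rw [map_add, Polynomial.eval_add, hp, hq, map_add]
  | mul_X p i hp =>
    rw [map_mul, Polynomial.eval_mul, hp, aeval_X, map_mul, eval_X, Polynomial.eval_mul,
      Polynomial.eval_C, Polynomial.eval_X, Pi.smul_apply, smul_eq_mul, mul_comm (v i) c]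

omit [Algebra k K] in
theorem vanLine_eq_zero [Infinite K] (v : Fin (ν + 1) → K) (G : MvPolynomial (Fin (ν + 1)) K) :
    vanLine v G = 0 ↔ ∀ c : K, eval (c • v) G = 0 := by
  constructor
  · intro h c
    rw [← eval_vanLine, h, Polynomial.eval_zero]
  · intro h
    apply Polynomial.zero_of_eval_zero
    intro c
    rw [eval_vanLine, h]

omit [Algebra k K] in
theorem vanLine_hom [Infinite K] {v : Fin (ν + 1) → K} {G : MvPolynomial (Fin (ν + 1)) K}
    (h : ∀ c : K, eval (c • v) G = 0) (m : ℕ) : eval v (homogeneousComponent m G) = 0 := by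
  set R : Polynomial K := ∑ i ∈ Finset.range (G.totalDegree + 1),
    Polynomial.C (eval v (homogeneousComponent i G)) * Polynomial.X ^ i with hR
  have hR0 : R = 0 := by
    apply Polynomial.zero_of_eval_zero
    intro l
    have h1 := h l
    rw [← sum_homogeneousComponent G, map_sum] at h1
    rw [hR, Polynomial.eval_finsetSum, ← h1]
    refine Finset.sum_congr rfl fun i _ => ?_
    rw [eval_smul_hom (homogeneousComponent_isHomogeneous i G) l v, Polynomial.eval_mul,
      Polynomial.eval_C, Polynomial.eval_pow, Polynomial.eval_X, mul_comm]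
  have hcoef := congrArg (fun p => p.coeff m) hR0
  simp only [hR, Polynomial.finsetSum_coeff, Polynomial.coeff_C_mul_X_pow,
    Polynomial.coeff_zero] at hcoef
  rw [Finset.sum_ite_eq] at hcoef
  split_ifs at hcoef with h2
  · exact hcoef
  · rw [homogeneousComponent_eq_zero, map_zero]
    rw [Finset.mem_range] at h2
    omega

omit [Algebra k K] in
theorem mem_van {U : Ultrafilter ℕ} {x : ℕ → Fin (ν + 1) → K}
    {G : MvPolynomial (Fin (ν + 1)) K} :
    G ∈ van U x ↔ ∀ᶠ n in (U : Filter ℕ), ∀ c : K, eval (c • x n) G = 0 := Iff.rfl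

theorem van_form [Infinite K] {U : Ultrafilter ℕ} {x : ℕ → Fin (ν + 1) → K}
    {G : MvPolynomial (Fin (ν + 1)) K} {e : ℕ} (hG : G.IsHomogeneous e) :
    G ∈ van U x ↔ ∀ᶠ n in (U : Filter ℕ), eval (x n) G = 0 := by
  rw [mem_van]
  constructor
  · intro h
    filter_upwards [h] with n hn
    have h1 := hn 1
    rwa [one_smul] at h1
  · intro h
    filter_upwards [h] with n hn c
    rw [eval_smul_hom hG c (x n), hn, mul_zero]

theorem van_hom [Infinite K] {U : Ultrafilter ℕ} {x : ℕ → Fin (ν + 1) → K}
    {G : MvPolynomial (Fin (ν + 1)) K} (hG : G ∈ van U x) (m : ℕ) :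
    homogeneousComponent m G ∈ van U x := by
  rw [van_form (homogeneousComponent_isHomogeneous m G)]
  filter_upwards [mem_van.1 hG] with n hn
  exact vanLine_hom hn m

theorem van_prime [Infinite K] {U : Ultrafilter ℕ} {x : ℕ → Fin (ν + 1) → K}
    (hx : ∀ n, x n ≠ 0) : (van U x).IsPrime := by
  rw [Ideal.isPrime_iff]
  constructor
  · intro h
    have h1 : (1 : MvPolynomial (Fin (ν + 1)) K) ∈ van U x := by
      rw [h]
      exact Submodule.mem_top
    obtain ⟨n, hn⟩ := (mem_van.1 h1).exists
    have h2 := hn 0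
    rw [map_one] at h2
    exact one_ne_zero h2
  · intro G H hGH
    have h1 : ∀ᶠ n in (U : Filter ℕ), (∀ c : K, eval (c • x n) G = 0) ∨
        ∀ c : K, eval (c • x n) H = 0 := by
      filter_upwards [mem_van.1 hGH] with n hn
      have h2 : vanLine (x n) G * vanLine (x n) H = 0 := by
        unfold vanLine
        rw [← map_mul]
        exact (vanLine_eq_zero (x n) (G * H)).2 hn
      rcases mul_eq_zero.1 h2 with h3 | h3
      · exact Or.inl ((vanLine_eq_zero _ _).1 h3)
      · exact Or.inr ((vanLine_eq_zero _ _).1 h3)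
    exact Ultrafilter.eventually_or.1 h1

theorem van_rel3 [Infinite K] {U : Ultrafilter ℕ} {x : ℕ → Fin (ν + 1) → K}
    (h : OnCurve U x) : Rel3 (van U x) := by
  intro m
  obtain ⟨P, e, hP, hP0, hPv⟩ := h m
  refine ⟨P, e, hP, hP0, ?_⟩
  have hhom : (aeval (fun j => ∑ i, C (m j i) * X i : Fin 3 → MvPolynomial (Fin (ν + 1)) K)
      P).IsHomogeneous (1 * e) := by
    apply hP.aeval
    intro j
    apply IsHomogeneous.sum
    intro i _
    exact isHomogeneous_C_mul_X _ _
  rw [van_form hhom]
  filter_upwards [hPv] with n hn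
  rw [← hn]
  have h3 : ∀ Q : MvPolynomial (Fin 3) K, eval (x n) (aeval
      (fun j => ∑ i, C (m j i) * X i : Fin 3 → MvPolynomial (Fin (ν + 1)) K) Q) =
      eval (fun j => ∑ i, m j i * x n i) Q := by
    intro Q
    induction Q using MvPolynomial.induction_on with
    | C a => simp
    | add p q hp hq => simp only [map_add, hp, hq]
    | mul_X p i hp =>
      rw [map_mul, map_mul, map_mul, hp, aeval_X, eval_X]
      congr 1
      simp
  exact h3 P

theorem van_curve [IsAlgClosed k] {U : Ultrafilter ℕ} {x : ℕ → Fin (ν + 1) → K}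
    (hx : ∀ n, x n ≠ 0) (h : OnCurve U x) : IsCurve (van U x) := by
  have h1 : Infinite k := IsAlgClosed.instInfinite
  have h2 : Infinite K := Infinite.of_injective (algebraMap k K) (algebraMap k K).injective
  refine ⟨van_prime hx, fun G hG m => van_hom hG m, ?_⟩
  obtain ⟨a₀, a₁, s, hs⟩ := fin_of_rel3 (k := k) (van_rel3 h)
  exact ⟨fun j => algebraMap k K (a₀ j), fun j => algebraMap k K (a₁ j), s, hs⟩

theorem van_on {U : Ultrafilter ℕ} {x : ℕ → Fin (ν + 1) → K} (hx : ∀ n, x n ≠ 0) :
    ∀ᶠ n in (U : Filter ℕ), OnI (van U x) (x n) := by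
  obtain ⟨s, hs⟩ := (isNoetherianRing_iff_ideal_fg _).1
    (inferInstance : IsNoetherianRing (MvPolynomial (Fin (ν + 1)) K)) (van U x)
  have h1 : ∀ᶠ n in (U : Filter ℕ), ∀ g ∈ s, eval (x n) g = 0 := by
    rw [Filter.eventually_all_finset]
    intro g hg
    have h2 : g ∈ van U x := by
      rw [← hs]
      exact Ideal.subset_span hg
    filter_upwards [mem_van.1 h2] with n hn
    have h3 := hn 1
    rwa [one_smul] at h3
  filter_upwards [h1] with n hn
  refine ⟨hx n, fun G hG => ?_⟩
  rw [← hs] at hG
  have h4 : ∀ G : MvPolynomial (Fin (ν + 1)) K, aeval (x n) G = eval (x n) G := fun G => by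
    rw [← MvPolynomial.coe_aeval_eq_eval]
    rfl
  induction hG using Submodule.span_induction with
  | mem g hg => rw [h4]; exact hn g hg
  | zero => rw [map_zero]
  | add a b _ _ ha hb => rw [map_add, ha, hb, add_zero]
  | smul a b _ hb => rw [smul_eq_mul, map_mul, hb, mul_zero]

end Pool.Agent.Helper63.TN
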