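import Pool.Agent.Helper38.TQK.Main
import Pool.Agent.Helper38.TQ.CurveSet

/-!
# Curves in projective space over a function field: definitions

`k` is an algebraically closed field, `K` a function field of one variable over `k`. Curves are
given by homogeneous prime ideals.
-/

set_option autoImplicit false

namespace Pool.Agent.Helper63.TN

open MvPolynomial
open Pool.Agent.Helper16 (Place IsFunctionField)
open Pool.Agent.Helper36 (step iter)
open Pool.Agent.Helper38.TQ
open Pool.Agent.Helper30.TKN

variable {ν : ℕ}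

/-- The vector `x` with the coordinates considered as elements of `L`. -/
def inc {K : Type} (L : Type) [Field K] [Field L] [Algebra K L] (x : Fin (ν + 1) → K) :
    Fin (ν + 1) → L :=
  fun a => algebraMap K L (x a)

section

variable {K : Type} [Field K]

/-- The point `u` over `L` is a zero of the ideal. -/
def OnI (I : Ideal (MvPolynomial (Fin (ν + 1)) K)) {L : Type} [Field L] [Algebra K L]
    (u : Fin (ν + 1) → L) : Prop :=
  u ≠ 0 ∧ ∀ G ∈ I, aeval u G = 0

/-- `I` is a homogeneous prime ideal, and its zero set has dimension at most one. -/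
structure IsCurve (I : Ideal (MvPolynomial (Fin (ν + 1)) K)) : Prop where
  prime : I.IsPrime
  hom : ∀ G ∈ I, ∀ m, homogeneousComponent m G ∈ I
  fin : ∃ (l₀ l₁ : Fin (ν + 1) → K) (s : ℕ), ∀ i, (X i ^ s : MvPolynomial (Fin (ν + 1)) K) ∈
    I ⊔ Ideal.span {∑ j, C (l₀ j) * X j, ∑ j, C (l₁ j) * X j}

/-- The polynomial `G` composed with the `N`-th iterate of `F`. -/
noncomputable def pull (F : Fin (ν + 1) → MvPolynomial (Fin (ν + 1)) K) (N : ℕ)
    (G : MvPolynomial (Fin (ν + 1)) K) : MvPolynomial (Fin (ν + 1)) K :=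
  (fun P => aeval F P)^[N] G

/-- The curve is not periodic. -/
def NonPer (I : Ideal (MvPolynomial (Fin (ν + 1)) K))
    (F : Fin (ν + 1) → MvPolynomial (Fin (ν + 1)) K) : Prop :=
  ∀ N, 0 < N → ∃ h ∈ I, ∃ e, h.IsHomogeneous e ∧ pull F N h ∉ I

/-- The point `w` over `L` is periodic. -/
def IsPer (F : Fin (ν + 1) → MvPolynomial (Fin (ν + 1)) K) {L : Type} [Field L] [Algebra K L]
    (w : Fin (ν + 1) → L) : Prop :=
  ∃ M : ℕ, 0 < M ∧ ∃ γ : L, iter F w M = γ • w

end

section

variable {k K : Type} [Field k] [Field K] [Algebra k K]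

/-- The place `v` of the extension `L` is above the place `b`. -/
def Above {L : Type} [Field L] [Algebra k L] [Algebra K L] (v : Place k L) (b : Place k K) : Prop :=
  ∃ e : ℕ, 0 < e ∧ ∀ a : K, v.val (algebraMap K L a) = b.val a ^ e

/-- There is a point `w` of the curve near `z` with the property `R`, over an extension with the
same value group. -/
def NearPt (I : Ideal (MvPolynomial (Fin (ν + 1)) K)) (b : Place k K) (z : Fin (ν + 1) → k)
    (R : ∀ (L : Type) [Field L] [Algebra K L], (Fin (ν + 1) → L) → Prop) : Prop :=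
  ∃ (L : Type) (_ : Field L) (_ : Algebra k L) (_ : Algebra K L) (_ : IsScalarTower k K L)
    (v : Place k L) (w : Fin (ν + 1) → L), (∀ a : K, v.val (algebraMap K L a) = b.val a) ∧
      OnI I w ∧ Red v w z ∧ R L w

end

/-- A point of projective space with coordinates in a finite extension of `K`. -/
structure FinPt (ν : ℕ) (k K : Type) [Field k] [Field K] [Algebra k K] where
  /-- the field -/
  L : Type
  [fld : Field L]
  [algk : Algebra k L]
  [alg : Algebra K L]
  [tow : IsScalarTower k K L]
  [fin : FiniteDimensional K L]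
  /-- the coordinates -/
  y : Fin (ν + 1) → L
  ne : y ≠ 0

attribute [instance] FinPt.fld FinPt.algk FinPt.alg FinPt.tow FinPt.fin

/-- The point `u` over `K'` is a multiple of a conjugate of the point `A`. -/
def Conj {k K : Type} [Field k] [Field K] [Algebra k K] (A : FinPt ν k K) {K' : Type} [Field K']
    [Algebra K K'] (u : Fin (ν + 1) → K') : Prop :=
  ∃ (σ : A.L →ₐ[K] K') (c : K'), c ≠ 0 ∧ u = fun i => c * σ (A.y i)

/-- The curve contains arbitrarily many periodic points. -/
def ManyPer (k : Type) {K : Type} [Field k] [Field K] [Algebra k K]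
    (I : Ideal (MvPolynomial (Fin (ν + 1)) K))
    (F : Fin (ν + 1) → MvPolynomial (Fin (ν + 1)) K) : Prop :=
  ∀ s : ℕ, ∃ (L : Type) (_ : Field L) (_ : Algebra k L) (_ : Algebra K L)
    (_ : IsScalarTower k K L) (_ : FiniteDimensional K L) (w : Fin s → Fin (ν + 1) → L),
    (∀ j, OnI I (w j) ∧ IsPer F (w j)) ∧ ∀ i j, i ≠ j → ¬ PEq (w i) (w j)

end Pool.Agent.Helper63.TN
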