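import Pool.Agent.Helper63.TN.FinPer
import Pool.Agent.Helper63.TN.FixC
import Pool.Agent.Helper63.TN.StLocal

/-!
# Curves with finitely many periodic points: the contact of returns
-/

set_option autoImplicit false

namespace Pool.Agent.Helper63.TN

open MvPolynomial
open Pool.Agent.Helper16 (Place IsFunctionField)
open Pool.Agent.Helper36 (step iter iter_add)
open Pool.Agent.Helper38.TQ
open Pool.Agent.Helper30.TKN

variable {ν : ℕ} {k K : Type} [Field k] [Field K] [Algebra k K]

/-- A set whose finite subsets have bounded cardinality is finite. -/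
theorem CaseB_finite {α : Type} {S : Set α} {B : ℕ}
    (h : ∀ T : Finset α, (∀ b ∈ T, b ∈ S) → T.card ≤ B) : S.Finite := by
  by_contra hS
  obtain ⟨T, hT, hc⟩ := (Set.not_finite.1 hS : S.Infinite).exists_subset_card_eq (B + 1)
  have h1 := h T fun b hb => hT hb
  omega

/-- Infinitely many returns in a residue class. -/
theorem CaseB_class {P : ℕ → Prop} (h : {n | P n}.Infinite) (i : ℕ) {N : ℕ} (hN : 0 < N) :
    ∃ r < N, {j : ℕ | P (i + r + N * j)}.Infinite := by
  by_contra hcon
  push Not at hcon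
  refine h (Set.Finite.subset ((Set.finite_Iio i).union
    (Set.Finite.biUnion (Set.finite_Iio N) fun r hr =>
      (hcon r hr).image fun j => i + r + N * j)) ?_)
  intro n hn
  by_cases hi : n < i
  · exact Or.inl hi
  · refine Or.inr ?_
    rw [Set.mem_iUnion₂]
    have h1 : i + (n - i) % N + N * ((n - i) / N) = n := by
      have := Nat.mod_add_div (n - i) N
      omega
    refine ⟨(n - i) % N, Nat.mod_lt _ hN, (n - i) / N, ?_, h1⟩
    show P _
    rw [h1]
    exact hn

/-- If the curve has finitely many periodic points but infinitely many returns, then the places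
at which two points of the orbit coincide belong to a finite set which depends on the first point
only. -/
theorem caseB [IsAlgClosed k] [CharZero k] [Algebra K ℂ] (hK : IsFunctionField k K) {d : ℕ}
    {F : Fin (ν + 1) → MvPolynomial (Fin (ν + 1)) K}
    (hF : IsEndo d fun i => map (algebraMap K ℂ) (F i))
    {I : Ideal (MvPolynomial (Fin (ν + 1)) K)} (hI : IsCurve I)
    (hnp : NonPer I F) (hfew : ¬ ManyPer k I F) {x : Fin (ν + 1) → K} (hx : x ≠ 0)
    (hdist : ∀ n n', n ≠ n' → ¬ PEq (iter F x n) (iter F x n'))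
    (hinf : {n | OnI I (iter F x n)}.Infinite) :
    ∀ i, ∃ B : Set (Place k K), B.Finite ∧ ∀ n, i < n →
      ∀ b : Place k K, Same b (iter F x i) (iter F x n) → b ∈ B := by
  classical
  intro i
  have hFh := homog_of_endo hF
  obtain ⟨s, A, hA, hAll⟩ := fin_per hK hFh hI hnp hfew
  let S : Fin s → Set (Place k K) := fun j => {b | ∃ (v : Place k (A j).L) (m : ℕ), Above v b ∧
    Same v (inc (A j).L (iter F x i)) (iter F (A j).y m)}
  have hS : ∀ j, (S j).Finite := by
    intro j
    obtain ⟨B, hB⟩ := fix_count hK hF hx hdist (A j) (hA j).2 i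
    exact CaseB_finite (B := B) fun T hT => hB T fun b hb => hT b hb
  refine ⟨{b | ¬ Good d b F} ∪ ⋃ j, S j, (good_finite hK hF).union (Set.finite_iUnion hS), ?_⟩
  intro n hn b hsame
  by_cases hgood : Good d b F
  swap
  · exact Or.inl hgood
  refine Or.inr ?_
  obtain ⟨f, hf⟩ := hgood
  have hxi : iter F x i ≠ 0 := iter_ne_zeroK hF hx i
  have hxn : iter F x n ≠ 0 := iter_ne_zeroK hF hx n
  obtain ⟨z₀, hz₀⟩ := exists_red hK b (iter F x i) hxi
  obtain ⟨N, rfl⟩ := Nat.exists_eq_add_of_lt hn
  have hN : 0 < N + 1 := Nat.succ_pos N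
  have hz₁ : Red b (iter F x (i + N + 1)) (iter f z₀ (N + 1)) := by
    have h := hf.iter hFh hz₀ (N + 1)
    rw [← iter_add] at h
    have h1 : N + 1 + i = i + N + 1 := by omega
    rwa [h1] at h
  have hfix₀ : PEq z₀ (iter f z₀ (N + 1)) :=
    Red.unique (red_of_same hK hxi hxn hz₀ hsame) hz₁ (PEq.refl _)
  obtain ⟨r, hr, hinf'⟩ := CaseB_class hinf i hN
  have hred : Red b (iter F x (i + r)) (iter f z₀ r) := by
    have h := hf.iter hFh hz₀ r
    rwa [← iter_add, Nat.add_comm r i] at h
  have hfix : PEq (iter f z₀ r) (iter f (iter f z₀ r) (N + 1)) := by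
    have h := PEq.iter hf.endo hfix₀ r
    rwa [← iter_add, Nat.add_comm r (N + 1), iter_add] at h
  obtain ⟨L, _, _, _, _, v, w, hv, hon, hredw, hper⟩ :=
    local_main hK hF hI hnp hx hdist hN hinf' hred hf hfix
  obtain ⟨j, hj⟩ := hAll L w hon hper
  obtain ⟨v', hv', hr'⟩ := descend hK (b' := v) hv (A j) hj hredw
  have hab : Above v' b := ⟨1, one_pos, fun a => by rw [pow_one]; exact hv' a⟩
  have h1 := red_iter_ext hK hFh hab hf hr' (N + 1 - r)
  rw [← iter_add, Nat.sub_add_cancel hr.le] at h1
  have h2 := red_inc hab hz₀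
  rw [Set.mem_iUnion]
  exact ⟨j, v', N + 1 - r, hab, same_of_red h2 h1 hfix₀⟩

end Pool.Agent.Helper63.TN
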