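import Pool.Agent.Helper63.TN.Defs

/-!
# Curves swept out by sequences of points: definitions
-/

set_option autoImplicit false

namespace Pool.Agent.Helper63.TN

open MvPolynomial
open Pool.Agent.Helper16 (Place IsFunctionField)
open Pool.Agent.Helper36 (step iter)
open Pool.Agent.Helper38.TQ
open Pool.Agent.Helper30.TKN

variable {ν : ℕ} {k K : Type} [Field k] [Field K] [Algebra k K]

/-- The ideal of all polynomials which vanish at all multiples of `x n`, for `U`-many `n`. -/
def van (U : Ultrafilter ℕ) (x : ℕ → Fin (ν + 1) → K) : Ideal (MvPolynomial (Fin (ν + 1)) K) where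
  carrier := {G | ∀ᶠ n in (U : Filter ℕ), ∀ c : K, eval (c • x n) G = 0}
  add_mem' := by
    intro a b ha hb
    filter_upwards [ha, hb] with n h1 h2 c
    rw [map_add, h1 c, h2 c, add_zero]
  zero_mem' := Filter.Eventually.of_forall fun n c => map_zero _
  smul_mem' := by
    intro g a ha
    filter_upwards [ha] with n h1 c
    rw [smul_eq_mul, map_mul, h1 c, mul_zero]

/-- Any three linear forms satisfy a homogeneous relation modulo the ideal. -/
def Rel3 (I : Ideal (MvPolynomial (Fin (ν + 1)) K)) : Prop :=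
  ∀ m : Fin 3 → Fin (ν + 1) → K, ∃ (P : MvPolynomial (Fin 3) K) (e : ℕ), P.IsHomogeneous e ∧
    P ≠ 0 ∧ aeval (fun j => ∑ i, C (m j i) * X i : Fin 3 → MvPolynomial (Fin (ν + 1)) K) P ∈ I

/-- The forms `f i` of degree `n` are linearly independent modulo the ideal. -/
def IndMod (I : Ideal (MvPolynomial (Fin (ν + 1)) K)) (n : ℕ) {ι : Type} [Fintype ι]
    (f : ι → MvPolynomial (Fin (ν + 1)) K) : Prop :=
  (∀ i, (f i).IsHomogeneous n) ∧ ∀ c : ι → K, ∑ i, C (c i) * f i ∈ I → c = 0

/-- The place `v` of `L` extends `b` with the same value group. -/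
def Ext {L : Type} [Field L] [Algebra k L] [Algebra K L] (v : Place k L) (b : Place k K) : Prop :=
  ∀ a : K, v.val (algebraMap K L a) = b.val a

/-- At the place `b` the reduction `z` of the point `x_i` is fixed by the `N`-th iterate. -/
structure Ret (d : ℕ) (F : Fin (ν + 1) → MvPolynomial (Fin (ν + 1)) K) (b : Place k K)
    (x : Fin (ν + 1) → K) (i N : ℕ) (f : Fin (ν + 1) → MvPolynomial (Fin (ν + 1)) k)
    (z : Fin (ν + 1) → k) : Prop where
  good : GoodRed d b F f
  red : Red b (iter F x i) z
  fix : PEq z (iter f z N)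

end Pool.Agent.Helper63.TN
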