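import Pool.Agent.Helper63.TN.Defs2

/-!
# The number of places at which two points coincide
-/

set_option autoImplicit false

namespace Pool.Agent.Helper63.TN

open MvPolynomial
open Pool.Agent.Helper16 (Place IsFunctionField)
open Pool.Agent.Helper36 (step iter)
open Pool.Agent.Helper38.TQ
open Pool.Agent.Helper30.TKN

variable {ν : ℕ} {k K : Type} [Field k] [Field K] [Algebra k K]

theorem same_count [IsAlgClosed k] (hK : IsFunctionField k K) {y y' : Fin (ν + 1) → K}
    (hy : y ≠ 0) (hy' : y' ≠ 0) (h : ¬ PEq y y') (T : Finset (Place k K))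
    (hT : ∀ v ∈ T, Same v y y') : (T.card : ℤ) ≤ ht k y + ht k y' := by
  classical
  obtain ⟨p, q, hpq⟩ : ∃ p q, y p * y' q - y q * y' p ≠ 0 := by
    by_contra hcon
    push Not at hcon
    exact h (peq_of_minors hy hy' hcon)
  have s1 := nrm_support hK y hy
  have s2 := nrm_support hK y' hy'
  obtain ⟨s3, e3⟩ := finsum_log hK _ hpq
  set g : Place k K → ℤ := fun b => WithZero.log (nrm b y) + WithZero.log (nrm b y') -
    WithZero.log (b.val (y p * y' q - y q * y' p)) with hg
  have s12 : (Function.support fun b : Place k K => WithZero.log (nrm b y) +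
      WithZero.log (nrm b y')).Finite := (s1.union s2).subset (Function.support_add _ _)
  have hgs : (Function.support g).Finite := (s12.union s3).subset (Function.support_sub _ _)
  have hsum : ∑ᶠ b, g b = ht k y + ht k y' := by
    rw [hg, finsum_sub_distrib s12 s3, e3, sub_zero, finsum_add_distrib s1 s2]
    rfl
  have h0 : ∀ b : Place k K, b.val (y p * y' q - y q * y' p) ≠ 0 := by
    intro b
    simpa using hpq
  have hmin : ∀ b : Place k K, b.val (y p * y' q - y q * y' p) ≤ nrm b y * nrm b y' := by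
    intro b
    refine (b.val.map_sub _ _).trans (max_le ?_ ?_)
    · rw [map_mul]
      exact mul_le_mul' (val_le_nrm b y p) (val_le_nrm b y' q)
    · rw [map_mul]
      exact mul_le_mul' (val_le_nrm b y q) (val_le_nrm b y' p)
  have hg0 : ∀ b, 0 ≤ g b := by
    intro b
    have n1 := nrm_ne_zero (b := b) hy
    have n2 := nrm_ne_zero (b := b) hy'
    have h4 := (WithZero.log_le_log (h0 b) (mul_ne_zero n1 n2)).2 (hmin b)
    rw [WithZero.log_mul n1 n2] at h4
    show 0 ≤ WithZero.log (nrm b y) + WithZero.log (nrm b y') -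
      WithZero.log (b.val (y p * y' q - y q * y' p))
    linarith
  have hg1 : ∀ b ∈ T, 1 ≤ g b := by
    intro b hb
    have n1 := nrm_ne_zero (b := b) hy
    have n2 := nrm_ne_zero (b := b) hy'
    have h4 := (WithZero.log_lt_log (h0 b) (mul_ne_zero n1 n2)).2 (hT b hb p q)
    rw [WithZero.log_mul n1 n2] at h4
    show 1 ≤ WithZero.log (nrm b y) + WithZero.log (nrm b y') -
      WithZero.log (b.val (y p * y' q - y q * y' p))
    linarith
  rw [← hsum, finsum_eq_sum_of_support_subset g (s := hgs.toFinset ∪ T) (by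
    intro b hb
    rw [Finset.coe_union]
    exact Or.inl (by simpa using hb))]
  calc (T.card : ℤ) = ∑ b ∈ T, (1 : ℤ) := by simp
    _ ≤ ∑ b ∈ T, g b := Finset.sum_le_sum hg1
    _ ≤ ∑ b ∈ hgs.toFinset ∪ T, g b :=
        Finset.sum_le_sum_of_subset_of_nonneg Finset.subset_union_right fun b _ _ => hg0 b

/-- The minors of the two points, up to constants. -/
theorem minor_sub {v : Place k K} {y y' : Fin (ν + 1) → K}
    {z z' : Fin (ν + 1) → k} {c c' : K} (hz' : z' ≠ 0)
    (h : ∀ i, v.val (c * y i - algebraMap k K (z i)) < 1)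
    (h' : ∀ i, v.val (c' * y' i - algebraMap k K (z' i)) < 1) (p q : Fin (ν + 1)) :
    v.val (c * c' * (y p * y' q - y q * y' p) - algebraMap k K (z p * z' q - z q * z' p)) < 1 := by
  have n2 : nrm v (c' • y') = 1 := nrm_red hz' h'
  have h8 : ∀ i j, v.val ((c * y i - algebraMap k K (z i)) * (c' * y' j) +
      algebraMap k K (z i) * (c' * y' j - algebraMap k K (z' j))) < 1 := by
    intro i j
    have hy1 : v.val (c' * y' j) ≤ 1 := by
      rw [← n2]; exact val_le_nrm v (c' • y') j
    refine (v.val.map_add _ _).trans_lt (max_lt ?_ ?_)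
    · rw [map_mul]
      exact mul_lt_one_of_lt_of_le (h i) hy1
    · rw [map_mul, mul_comm]
      exact mul_lt_one_of_lt_of_le (h' j) (v.val_algebraMap_le _)
  have h9 : c * c' * (y p * y' q - y q * y' p) - algebraMap k K (z p * z' q - z q * z' p) =
      ((c * y p - algebraMap k K (z p)) * (c' * y' q) +
            algebraMap k K (z p) * (c' * y' q - algebraMap k K (z' q)))
          - ((c * y q - algebraMap k K (z q)) * (c' * y' p) +
            algebraMap k K (z q) * (c' * y' p - algebraMap k K (z' p))) := by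
    simp only [map_sub, map_mul]
    ring
  rw [h9]
  exact (v.val.map_sub _ _).trans_lt (max_lt (h8 p q) (h8 q p))

theorem nrm_mul_of_red {v : Place k K} {y y' : Fin (ν + 1) → K} {z z' : Fin (ν + 1) → k}
    {c c' : K} (hz : z ≠ 0) (hz' : z' ≠ 0)
    (h : ∀ i, v.val (c * y i - algebraMap k K (z i)) < 1)
    (h' : ∀ i, v.val (c' * y' i - algebraMap k K (z' i)) < 1) :
    v.val (c * c') * (nrm v y * nrm v y') = 1 := by
  have n1 : nrm v (c • y) = 1 := nrm_red hz h
  have n2 : nrm v (c' • y') = 1 := nrm_red hz' h'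
  rw [nrm_smul] at n1 n2
  rw [map_mul, mul_mul_mul_comm, n1, n2, one_mul]

/-- Points with the same reduction, over an extension. -/
theorem same_of_red [IsAlgClosed k] {v : Place k K} {y y' : Fin (ν + 1) → K}
    {z z' : Fin (ν + 1) → k} (h : Red v y z) (h' : Red v y' z') (hz : PEq z z') :
    Same v y y' := by
  obtain ⟨hz0, c, hc, h1⟩ := h
  obtain ⟨hz0', c', hc', h1'⟩ := h'
  obtain ⟨t, ht, rfl⟩ := hz
  intro p q
  have h2 := minor_sub hz0' h1 h1' p q
  have h3 : z p * (t • z) q - z q * (t • z) p = 0 := by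
    simp only [Pi.smul_apply, smul_eq_mul]
    ring
  rw [h3, map_zero, sub_zero, map_mul, ← nrm_mul_of_red hz0 hz0' h1 h1'] at h2
  exact lt_of_mul_lt_mul_left h2 zero_le

theorem red_of_same [IsAlgClosed k] (hK : IsFunctionField k K) {v : Place k K}
    {y y' : Fin (ν + 1) → K} (hy : y ≠ 0) (hy' : y' ≠ 0) {z : Fin (ν + 1) → k} (h : Red v y z)
    (hs : Same v y y') : Red v y' z := by
  obtain ⟨hz0, c, hc, h1⟩ := h
  obtain ⟨i0, hi0⟩ := exists_val_eq_nrm v y'
  have hn' := nrm_ne_zero (b := v) hy'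
  have hy0 : y' i0 ≠ 0 := by
    intro h0
    rw [h0, map_zero] at hi0
    exact hn' hi0.symm
  have hc' : (y' i0)⁻¹ ≠ 0 := inv_ne_zero hy0
  have hle : ∀ i, v.val ((y' i0)⁻¹ * y' i) ≤ 1 := by
    intro i
    rw [map_mul, map_inv₀, hi0]
    calc (nrm v y')⁻¹ * v.val (y' i) ≤ (nrm v y')⁻¹ * nrm v y' :=
          mul_le_mul_right (val_le_nrm v y' i) _
      _ = 1 := inv_mul_cancel₀ hn'
  choose z' hz' using fun i => exists_residue hK v ((y' i0)⁻¹ * y' i) (hle i)
  have hz0' : z' ≠ 0 := by
    intro h0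
    have h2 := hz' i0
    rw [h0, Pi.zero_apply, map_zero, sub_zero, inv_mul_cancel₀ hy0, map_one] at h2
    exact lt_irrefl _ h2
  have hmin : ∀ p q, z p * z' q - z q * z' p = 0 := by
    intro p q
    by_contra hne
    have h2 := minor_sub hz0' h1 hz' p q
    have h3 : v.val (c * (y' i0)⁻¹ * (y p * y' q - y q * y' p)) < 1 := by
      rw [map_mul, ← nrm_mul_of_red hz0 hz0' h1 hz']
      refine mul_lt_mul_of_pos_left (hs p q) (zero_lt_iff.2 ?_)
      simpa using ⟨hc, hy0⟩
    have h4 : v.val (algebraMap k K (z p * z' q - z q * z' p)) < 1 := by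
      have h5 : algebraMap k K (z p * z' q - z q * z' p) =
          c * (y' i0)⁻¹ * (y p * y' q - y q * y' p) -
            (c * (y' i0)⁻¹ * (y p * y' q - y q * y' p) -
              algebraMap k K (z p * z' q - z q * z' p)) := by ring
      rw [h5]
      exact (v.val.map_sub _ _).trans_lt (max_lt h3 h2)
    rw [v.triv _ hne] at h4
    exact lt_irrefl _ h4
  obtain ⟨t, ht, hzt⟩ := peq_of_minors hz0 hz0' hmin
  refine ⟨hz0, algebraMap k K t⁻¹ * (y' i0)⁻¹, mul_ne_zero (by simpa using ht) hc', fun i => ?_⟩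
  have h6 : algebraMap k K t⁻¹ * (y' i0)⁻¹ * y' i - algebraMap k K (z i) =
      algebraMap k K t⁻¹ * ((y' i0)⁻¹ * y' i - algebraMap k K (z' i)) := by
    rw [hzt, Pi.smul_apply, smul_eq_mul, mul_sub, ← map_mul, inv_mul_cancel_left₀ ht]
    ring
  rw [h6, map_mul, v.triv _ (inv_ne_zero ht), one_mul]
  exact hz' i

end Pool.Agent.Helper63.TN
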