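import Pool.Agent.Helper63.TN.Gen
import Pool.Agent.Helper63.TN.SameCt

/-!
# From a nearby point to a closed point
-/

set_option autoImplicit false

namespace Pool.Agent.Helper63.TN

open MvPolynomial
open Pool.Agent.Helper16 (Place IsFunctionField)
open Pool.Agent.Helper36 (step iter)
open Pool.Agent.Helper38.TQ
open Pool.Agent.Helper30.TKN

variable {ν : ℕ} {k K : Type} [Field k] [Field K] [Algebra k K]

theorem algHom_algebraMap {L K' : Type} [Field L] [Field K'] [Algebra k L] [Algebra K L]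
    [IsScalarTower k K L] [Algebra k K'] [Algebra K K'] [IsScalarTower k K K'] (σ : L →ₐ[K] K')
    (a : k) : σ (algebraMap k L a) = algebraMap k K' a := by
  rw [IsScalarTower.algebraMap_apply k K L, AlgHom.commutes,
    ← IsScalarTower.algebraMap_apply k K K']

/-- The place of `L` induced by an embedding into a field with a place over `b`. -/
noncomputable def pullPlace {L K' : Type} [Field L] [Field K'] [Algebra k L] [Algebra K L]
    [IsScalarTower k K L] [Algebra k K'] [Algebra K K'] [IsScalarTower k K K'] (σ : L →ₐ[K] K')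
    {b : Place k K} {b' : Place k K'} (hb : Ext b' b) : Place k L where
  val := b'.val.comap (σ : L →+* K')
  surj := by
    intro γ
    obtain ⟨a, ha⟩ := b.surj γ
    refine ⟨algebraMap K L a, ?_⟩
    rw [Valuation.comap_apply]
    change b'.val (σ (algebraMap K L a)) = γ
    rw [AlgHom.commutes, hb a, ha]
  triv := by
    intro a ha
    rw [Valuation.comap_apply]
    change b'.val (σ (algebraMap k L a)) = 1
    rw [algHom_algebraMap (K := K) σ a]
    exact b'.triv a ha

/-- A point over a large valued field which is a multiple of a conjugate of a point `A` over a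
finite extension gives a place of the field of `A`. -/
theorem descend [IsAlgClosed k] (hK : IsFunctionField k K) {K' : Type} [Field K'] [Algebra k K']
    [Algebra K K'] [IsScalarTower k K K'] {b : Place k K} {b' : Place k K'} (hb : Ext b' b)
    (A : FinPt ν k K) {w : Fin (ν + 1) → K'} (hw : Conj A w) {z : Fin (ν + 1) → k}
    (hz : Red b' w z) : ∃ v : Place k A.L, Ext v b ∧ Red v A.y z := by
  obtain ⟨σ, c, hc, rfl⟩ := hw
  obtain ⟨hz0, c', hc', h1⟩ := hz
  refine ⟨pullPlace σ hb, ?_, hz0, ?_⟩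
  · intro a
    change b'.val (σ (algebraMap K A.L a)) = b.val a
    rw [AlgHom.commutes, hb a]
  obtain ⟨i₀, hi₀⟩ : ∃ i, z i ≠ 0 := by
    by_contra hcon
    push Not at hcon
    exact hz0 (funext hcon)
  -- the value of the coordinate `i₀` is one
  set u : Fin (ν + 1) → K' := fun i => c' * (c * σ (A.y i)) with hu
  have h1' : ∀ i, b'.val (u i - algebraMap k K' (z i)) < 1 := h1
  have h2 : b'.val (u i₀) = 1 := by
    have h3 : u i₀ = (u i₀ - algebraMap k K' (z i₀)) + algebraMap k K' (z i₀) := by ring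
    rw [h3, Valuation.map_add_eq_of_lt_right]
    · exact b'.triv _ hi₀
    · rw [b'.triv _ hi₀]
      exact h1' i₀
  have hu0 : u i₀ ≠ 0 := by
    intro h0
    rw [h0, map_zero] at h2
    exact zero_ne_one h2
  have hy0 : σ (A.y i₀) ≠ 0 := by
    intro h0
    apply hu0
    simp only [hu, h0, mul_zero]
  have hy0' : A.y i₀ ≠ 0 := by
    intro h0
    apply hy0
    rw [h0, map_zero]
  have hzL : algebraMap k A.L (z i₀) ≠ 0 := by
    intro h0
    exact hi₀ ((map_eq_zero (algebraMap k A.L)).1 h0)
  refine ⟨algebraMap k A.L (z i₀) * (A.y i₀)⁻¹, mul_ne_zero hzL (inv_ne_zero hy0'), fun i => ?_⟩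
  change b'.val (σ (algebraMap k A.L (z i₀) * (A.y i₀)⁻¹ * A.y i - algebraMap k A.L (z i))) < 1
  rw [map_sub, map_mul, map_mul, map_inv₀, algHom_algebraMap (K := K) σ,
    algHom_algebraMap (K := K) σ]
  have h4 : algebraMap k K' (z i₀) * (σ (A.y i₀))⁻¹ * σ (A.y i) - algebraMap k K' (z i) =
      (algebraMap k K' (z i₀) * (u i - algebraMap k K' (z i)) -
        algebraMap k K' (z i) * (u i₀ - algebraMap k K' (z i₀))) * (u i₀)⁻¹ := by
    simp only [hu]
    field_simp
    ring
  rw [h4, map_mul, map_inv₀, h2, inv_one, mul_one]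
  have h5 : ∀ (a : k) (t : K'), b'.val t < 1 → b'.val (algebraMap k K' a * t) < 1 := by
    intro a t ht
    by_cases ha : a = 0
    · rw [ha, map_zero, zero_mul, map_zero]
      exact zero_lt_one
    · rw [map_mul, b'.triv a ha, one_mul]
      exact ht
  exact (b'.val.map_sub _ _).trans_lt (max_lt (h5 _ _ (h1' i)) (h5 _ _ (h1' i₀)))

theorem aeval_conj {L K' : Type} [Field L] [Field K'] [Algebra K L] [Algebra K K']
    (σ : L →ₐ[K] K') (y : Fin (ν + 1) → L) (G : MvPolynomial (Fin (ν + 1)) K) :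
    aeval (fun i => σ (y i)) G = σ (aeval y G) := by
  rw [← MvPolynomial.comp_aeval_apply]

theorem aeval_conj_hom {L K' : Type} [Field L] [Field K'] [Algebra K L] [Algebra K K']
    (σ : L →ₐ[K] K') (c : K') (y : Fin (ν + 1) → L) {m : ℕ} {G : MvPolynomial (Fin (ν + 1)) K}
    (hG : G.IsHomogeneous m) :
    aeval (fun i => c * σ (y i)) G = c ^ m * σ (aeval y G) := by
  rw [Pool.Agent.Helper36.aeval_smul_homogeneous hG c (fun i => σ (y i)), aeval_conj]

/-- Properties of points which are inherited by conjugates. -/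
theorem Conj.onI {I : Ideal (MvPolynomial (Fin (ν + 1)) K)} (hI : IsCurve I) {A : FinPt ν k K}
    {K' : Type} [Field K'] [Algebra K K'] {w : Fin (ν + 1) → K'} (hw : Conj A w) :
    OnI I w ↔ OnI I A.y := by
  obtain ⟨σ, c, hc, rfl⟩ := hw
  have hinj : Function.Injective σ := σ.toRingHom.injective
  constructor
  · rintro ⟨-, h2⟩
    refine ⟨A.ne, fun G hG => ?_⟩
    rw [← sum_homogeneousComponent G, map_sum]
    refine Finset.sum_eq_zero fun m _ => ?_
    have h3 := h2 _ (hI.hom G hG m)
    rw [aeval_conj_hom σ c A.y (homogeneousComponent_isHomogeneous m G)] at h3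
    rcases mul_eq_zero.1 h3 with h4 | h4
    · exact absurd h4 (pow_ne_zero _ hc)
    · exact hinj (by rw [h4, map_zero])
  · rintro ⟨-, h2⟩
    refine ⟨?_, fun G hG => ?_⟩
    · intro h0
      apply A.ne
      funext i
      have h3 : c * σ (A.y i) = 0 := congrFun h0 i
      rcases mul_eq_zero.1 h3 with h4 | h4
      · exact absurd h4 hc
      · exact hinj (by rw [h4, Pi.zero_apply, map_zero])
    · rw [← sum_homogeneousComponent G, map_sum]
      refine Finset.sum_eq_zero fun m _ => ?_
      rw [aeval_conj_hom σ c A.y (homogeneousComponent_isHomogeneous m G),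
        h2 _ (hI.hom G hG m), map_zero, mul_zero]

theorem iter_conj {d : ℕ} {F : Fin (ν + 1) → MvPolynomial (Fin (ν + 1)) K}
    (hF : ∀ i, (F i).IsHomogeneous d) {L K' : Type} [Field L] [Field K'] [Algebra K L]
    [Algebra K K'] (σ : L →ₐ[K] K') (c : K') (y : Fin (ν + 1) → L) (N : ℕ) :
    iter F (fun i => c * σ (y i)) N = fun i => c ^ d ^ N * σ (iter F y N i) := by
  induction N with
  | zero =>
    funext i
    rw [pow_zero, pow_one]
    rfl
  | succ N ih =>
    rw [Pool.Agent.Helper36.iter_succ, ih]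
    funext i
    change aeval (fun i => c ^ d ^ N * σ (iter F y N i)) (F i) = _
    rw [aeval_conj_hom σ (c ^ d ^ N) (iter F y N) (hF i), ← pow_mul, ← pow_succ,
      Pool.Agent.Helper36.iter_succ]
    rfl

theorem Conj.per {d : ℕ} {F : Fin (ν + 1) → MvPolynomial (Fin (ν + 1)) K}
    (hF : ∀ i, (F i).IsHomogeneous d) {A : FinPt ν k K} {K' : Type} [Field K'] [Algebra K K']
    {w : Fin (ν + 1) → K'} (hw : Conj A w) (N : ℕ) (h : ∃ γ : K', iter F w N = γ • w) :
    ∃ γ : A.L, iter F A.y N = γ • A.y := by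
  obtain ⟨σ, c, hc, rfl⟩ := hw
  obtain ⟨γ, hγ⟩ := h
  rw [iter_conj hF σ c A.y N] at hγ
  have hinj : Function.Injective σ := σ.toRingHom.injective
  obtain ⟨i₀, hi₀⟩ : ∃ i, A.y i ≠ 0 := by
    by_contra hcon
    push Not at hcon
    exact A.ne (funext hcon)
  have h1 : ∀ i, c ^ d ^ N * σ (iter F A.y N i) = γ * (c * σ (A.y i)) := fun i => congrFun hγ i
  have hcp : c ^ d ^ N ≠ 0 := pow_ne_zero _ hc
  refine ⟨iter F A.y N i₀ * (A.y i₀)⁻¹, ?_⟩
  funext i
  apply hinj
  have hs0 : σ (A.y i₀) ≠ 0 := by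
    intro h0
    exact hi₀ (hinj (by rw [h0, map_zero]))
  rw [Pi.smul_apply, smul_eq_mul, map_mul, map_mul, map_inv₀]
  apply mul_left_cancel₀ hcp
  have h2 : c ^ d ^ N * (σ (iter F A.y N i₀) * (σ (A.y i₀))⁻¹ * σ (A.y i)) =
      c ^ d ^ N * σ (iter F A.y N i₀) * (σ (A.y i₀))⁻¹ * σ (A.y i) := by ring
  rw [h1 i, h2, h1 i₀]
  field_simp

/-- The polynomials over the extension. -/
theorem goodRed_above {d : ℕ} {F : Fin (ν + 1) → MvPolynomial (Fin (ν + 1)) K}
    {L : Type} [Field L] [Algebra k L] [Algebra K L] [IsScalarTower k K L]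
    {b : Place k K} {v : Place k L} (hv : Above v b)
    {f : Fin (ν + 1) → MvPolynomial (Fin (ν + 1)) k} (hf : GoodRed d b F f) :
    GoodRed d v (fun i => map (algebraMap K L) (F i)) f := by
  obtain ⟨e, he, hve⟩ := hv
  refine ⟨hf.endo, fun i m => ?_⟩
  rw [coeff_map, IsScalarTower.algebraMap_apply k K L, ← map_sub, hve]
  exact pow_lt_one₀ zero_le (hf.red i m) he.ne'

/-- Reduction and iteration over a finite extension. -/
theorem red_iter_ext [IsAlgClosed k] (hK : IsFunctionField k K) {d : ℕ}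
    {F : Fin (ν + 1) → MvPolynomial (Fin (ν + 1)) K} (hF : ∀ i, (F i).IsHomogeneous d)
    {L : Type} [Field L] [Algebra k L] [Algebra K L] [IsScalarTower k K L]
    {b : Place k K} {v : Place k L} (hv : Above v b)
    {f : Fin (ν + 1) → MvPolynomial (Fin (ν + 1)) k} (hf : GoodRed d b F f)
    {y : Fin (ν + 1) → L} {z : Fin (ν + 1) → k} (hz : Red v y z) (m : ℕ) :
    Red v (iter F y m) (iter f z m) := by
  have hg := goodRed_above hv hf
  induction m with
  | zero => exact hz
  | succ m ih =>
    rw [Pool.Agent.Helper36.iter_succ, Pool.Agent.Helper36.iter_succ]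
    obtain ⟨hz0, c, hc, h1⟩ := ih
    refine ⟨step_ne_zero hf.endo hz0, c ^ d, pow_ne_zero _ hc, fun i => ?_⟩
    have h2 := (hg.red i).eval (u := fun i => c * iter F y m i) (z := iter f z m) h1
    have h3 : MvPolynomial.eval (fun i => c * iter F y m i) (map (algebraMap K L) (F i)) =
        aeval (fun i => c * iter F y m i) (F i) := by
      rw [eval_map, aeval_def]
    rw [h3, Pool.Agent.Helper36.aeval_smul_homogeneous (hF i)] at h2
    exact h2

theorem red_inc {L : Type} [Field L] [Algebra k L] [Algebra K L] [IsScalarTower k K L]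
    {b : Place k K} {v : Place k L} (hv : Above v b) {y : Fin (ν + 1) → K}
    {z : Fin (ν + 1) → k} (hz : Red b y z) : Red v (inc L y) z := by
  obtain ⟨e, he, hve⟩ := hv
  obtain ⟨hz0, c, hc, h1⟩ := hz
  refine ⟨hz0, algebraMap K L c, ?_, fun i => ?_⟩
  · intro h0
    exact hc ((map_eq_zero (algebraMap K L)).1 h0)
  · change v.val (algebraMap K L c * algebraMap K L (y i) - algebraMap k L (z i)) < 1
    rw [IsScalarTower.algebraMap_apply k K L, ← map_mul, ← map_sub, hve]
    exact pow_lt_one₀ zero_le (h1 i) he.ne'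

end Pool.Agent.Helper63.TN
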