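import Pool.Agent.Helper63.TN.Zeros
import Pool.Agent.Helper63.TN.Descend

/-!
# Curves with finitely many periodic points
-/

set_option autoImplicit false

namespace Pool.Agent.Helper63.TN

open MvPolynomial
open Pool.Agent.Helper16 (Place IsFunctionField)
open Pool.Agent.Helper36 (step iter iter_map aeval_smul_homogeneous)
open Pool.Agent.Helper38.TQ
open Pool.Agent.Helper30.TKN

variable {ν : ℕ} {k K : Type} [Field k] [Field K] [Algebra k K]

/-- A periodic point of the curve whose field is generated by the coordinates. -/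
def FinPer_Good (I : Ideal (MvPolynomial (Fin (ν + 1)) K))
    (F : Fin (ν + 1) → MvPolynomial (Fin (ν + 1)) K) (A : FinPt ν k K) : Prop :=
  OnI I A.y ∧ IsPer F A.y ∧ (∃ p, A.y p = 1) ∧ Algebra.adjoin K (Set.range A.y) = ⊤

/-- Every periodic point of the curve is a conjugate of a point over a finite extension. -/
theorem FinPer_exists_good {d : ℕ}
    {F : Fin (ν + 1) → MvPolynomial (Fin (ν + 1)) K} (hF : ∀ i, (F i).IsHomogeneous d)
    {I : Ideal (MvPolynomial (Fin (ν + 1)) K)} (hI : IsCurve I)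
    (hnp : NonPer I F) {K' : Type} [Field K'] [Algebra K K'] {u : Fin (ν + 1) → K'}
    (hu : OnI I u) (hp : IsPer F u) :
    ∃ A : FinPt ν k K, FinPer_Good I F A ∧ Conj A u := by
  obtain ⟨M, hM, γ, hγ⟩ := hp
  obtain ⟨h, hh, e, he, hQ⟩ := hnp M hM
  obtain ⟨s, A, hA, hc⟩ := exists_zeros (k := k) hI (pull_hom hF M he) hQ
  have h0 : aeval u (pull F M h) = 0 := by
    rw [aeval_pull, hγ]
    have h1 : (γ • u) = fun i => γ * u i := rfl
    rw [h1, aeval_smul_homogeneous he, hu.2 h hh, mul_zero]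
  obtain ⟨j, hj⟩ := hc K' u hu h0
  obtain ⟨γ', hγ'⟩ := Conj.per hF hj M ⟨γ, hγ⟩
  exact ⟨A j, ⟨(hA j).1, ⟨M, hM, γ', hγ'⟩, (hA j).2.2.1, (hA j).2.2.2⟩, hj⟩

theorem FinPer_trans {A B : FinPt ν k K} {K' : Type} [Field K'] [Algebra K K']
    {u : Fin (ν + 1) → K'} (h1 : Conj A B.y) (h2 : Conj B u) : Conj A u := by
  obtain ⟨σ, c, hc, h⟩ := h1
  obtain ⟨τ, c', hc', h'⟩ := h2
  refine ⟨τ.comp σ, c' * τ c, mul_ne_zero hc' ((map_ne_zero τ).2 hc), ?_⟩
  rw [h']
  funext i
  have h3 : B.y i = c * σ (A.y i) := by rw [h]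
  rw [h3, map_mul, AlgHom.comp_apply, mul_assoc]

/-- A common finite extension. -/
theorem FinPer_compositum {s : ℕ} (A : Fin s → FinPt ν k K) :
    ∃ (E : Type) (_ : Field E) (_ : Algebra k E) (_ : Algebra K E) (_ : IsScalarTower k K E)
      (_ : FiniteDimensional K E), Nonempty (∀ j, (A j).L →ₐ[K] E) := by
  classical
  let α : ∀ j, (A j).L →ₐ[K] AlgebraicClosure K := fun j => IsAlgClosed.lift
  have : ∀ j, FiniteDimensional K (α j).fieldRange := fun j =>
    (α j).toLinearMap.finiteDimensional_range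
  let E : IntermediateField K (AlgebraicClosure K) := ⨆ j, (α j).fieldRange
  have hE : FiniteDimensional K E := IntermediateField.finiteDimensional_iSup_of_finite
  let ak : Algebra k E := ((algebraMap K E).comp (algebraMap k K)).toAlgebra
  have : IsScalarTower k K E := IsScalarTower.of_algebraMap_eq fun x => rfl
  refine ⟨E, inferInstance, ak, inferInstance, inferInstance, hE, ⟨fun j => ?_⟩⟩
  exact (IntermediateField.inclusion (le_iSup (fun j => (α j).fieldRange) j)).comp
    (α j).rangeRestrict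

/-- Proportional images in a common extension. -/
theorem FinPer_conj {I : Ideal (MvPolynomial (Fin (ν + 1)) K)}
    {F : Fin (ν + 1) → MvPolynomial (Fin (ν + 1)) K} {A B : FinPt ν k K}
    (hA : FinPer_Good I F A) {E : Type} [Field E] [Algebra K E]
    (α : A.L →ₐ[K] E) (β : B.L →ₐ[K] E) {c : E} (hc : c ≠ 0)
    (h : ∀ a, β (B.y a) = c * α (A.y a)) : Conj A B.y := by
  obtain ⟨-, -, ⟨p, hp⟩, hgen⟩ := hA
  have h1 : β (B.y p) = c := by rw [h, hp, map_one, mul_one]
  have h2 : B.y p ≠ 0 := by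
    intro h0
    rw [h0, map_zero] at h1
    exact hc h1.symm
  have h3 : ∀ a, α (A.y a) = β ((B.y p)⁻¹ * B.y a) := by
    intro a
    rw [map_mul, map_inv₀, h1, h, ← mul_assoc, inv_mul_cancel₀ hc, one_mul]
  have h4 : ∀ x, α x ∈ β.range := by
    intro x
    have hx : x ∈ Algebra.adjoin K (Set.range A.y) := by rw [hgen]; trivial
    have h5 : Algebra.adjoin K (Set.range A.y) ≤ β.range.comap α := by
      refine Algebra.adjoin_le ?_
      rintro _ ⟨a, rfl⟩
      exact ⟨(B.y p)⁻¹ * B.y a, (h3 a).symm⟩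
    exact h5 hx
  let σ : A.L →ₐ[K] B.L :=
    ((AlgEquiv.ofInjective β β.injective).symm : β.range →ₐ[K] B.L).comp
      (α.codRestrict β.range h4)
  have h6 : ∀ x, β (σ x) = α x := by
    intro x
    have h7 : (AlgEquiv.ofInjective β β.injective) (σ x) = α.codRestrict β.range h4 x :=
      AlgEquiv.apply_symm_apply _ _
    have h8 := congrArg (Subtype.val) h7
    exact h8
  refine ⟨σ, B.y p, h2, ?_⟩
  funext a
  have h7 : β (B.y a) = β (B.y p * σ (A.y a)) := by rw [map_mul, h6, h1, h]
  exact β.injective h7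

theorem fin_per [IsAlgClosed k] (hK : IsFunctionField k K) {d : ℕ}
    {F : Fin (ν + 1) → MvPolynomial (Fin (ν + 1)) K} (hF : ∀ i, (F i).IsHomogeneous d)
    {I : Ideal (MvPolynomial (Fin (ν + 1)) K)} (hI : IsCurve I)
    (hnp : NonPer I F) (h : ¬ ManyPer k I F) :
    ∃ (s : ℕ) (A : Fin s → FinPt ν k K), (∀ j, OnI I (A j).y ∧ IsPer F (A j).y) ∧
      ∀ (K' : Type) [Field K'] [Algebra k K'] [Algebra K K'] [IsScalarTower k K K']
        (u : Fin (ν + 1) → K'), OnI I u → IsPer F u → ∃ j, Conj (A j) u := by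
  by_contra hcon
  apply h
  have key : ∀ s : ℕ, ∃ A : Fin s → FinPt ν k K, (∀ j, FinPer_Good I F (A j)) ∧
      ∀ i j, i < j → ¬ Conj (A i) (A j).y := by
    intro s
    induction s with
    | zero => exact ⟨fun j => j.elim0, fun j => j.elim0, fun j => j.elim0⟩
    | succ s ih =>
      obtain ⟨A, hA, hAc⟩ := ih
      have h1 : ¬ ∀ (K' : Type) [Field K'] [Algebra k K'] [Algebra K K'] [IsScalarTower k K K']
        (u : Fin (ν + 1) → K'), OnI I u → IsPer F u → ∃ j, Conj (A j) u := by
        intro h2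
        exact hcon ⟨s, A, fun j => ⟨(hA j).1, (hA j).2.1⟩, h2⟩
      push Not at h1
      obtain ⟨K', i1, i2, i3, i4, u, hu, hp, hn⟩ := h1
      obtain ⟨B, hB, hBu⟩ := FinPer_exists_good (k := k) hF hI hnp hu hp
      refine ⟨Fin.snoc (α := fun _ => FinPt ν k K) A B, ?_, ?_⟩
      · intro j
        refine Fin.lastCases ?_ (fun i => ?_) j
        · rw [Fin.snoc_last]; exact hB
        · rw [Fin.snoc_castSucc]; exact hA i
      · intro i j hij
        induction j using Fin.lastCases with
        | last =>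
          induction i using Fin.lastCases with
          | last => exact absurd hij (lt_irrefl _)
          | cast i =>
            rw [Fin.snoc_last, Fin.snoc_castSucc]
            intro h3
            exact hn i (FinPer_trans h3 hBu)
        | cast j =>
          induction i using Fin.lastCases with
          | last => exact absurd hij (not_lt.2 (Fin.le_last _))
          | cast i =>
            rw [Fin.snoc_castSucc, Fin.snoc_castSucc]
            exact hAc i j (by simpa using hij)
  intro s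
  obtain ⟨A, hA, hAc⟩ := key s
  obtain ⟨E, i1, i2, i3, i4, i5, ⟨α⟩⟩ := FinPer_compositum A
  refine ⟨E, i1, i2, i3, i4, i5, fun j a => α j ((A j).y a), ?_, ?_⟩
  · intro j
    refine ⟨⟨?_, ?_⟩, ?_⟩
    · obtain ⟨p, hp⟩ := (hA j).2.2.1
      intro h0
      have h1 := congrFun h0 p
      simp only [hp, map_one, Pi.zero_apply] at h1
      exact one_ne_zero h1
    · intro G hG
      have h1 := (hA j).1.2 G hG
      have h2 : aeval (fun a => α j ((A j).y a)) G = α j (aeval (A j).y G) := by
        rw [← MvPolynomial.comp_aeval_apply]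
      rw [h2, h1, map_zero]
    · obtain ⟨M, hM, γ, hγ⟩ := (hA j).2.1
      refine ⟨M, hM, α j γ, ?_⟩
      rw [iter_map, hγ]
      funext a
      simp only [Pi.smul_apply, smul_eq_mul, map_mul]
  · have h1 : ∀ i j, i < j → ¬ ∃ c : E, c ≠ 0 ∧
        ∀ a, α j ((A j).y a) = c * α i ((A i).y a) := by
      rintro i j hij ⟨c, hc, h2⟩
      exact hAc i j hij (FinPer_conj (hA i) (α i) (α j) hc h2)
    intro i j hij
    rintro ⟨c, hc, h2⟩
    rcases lt_or_gt_of_ne hij with h3 | h3
    · exact h1 i j h3 ⟨c, hc, fun a => congrFun h2 a⟩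
    · refine h1 j i h3 ⟨c⁻¹, inv_ne_zero hc, fun a => ?_⟩
      have h4 : α j ((A j).y a) = c * α i ((A i).y a) := congrFun h2 a
      rw [h4, ← mul_assoc, inv_mul_cancel₀ hc, one_mul]

end Pool.Agent.Helper63.TN
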