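import Pool.Agent.Helper63.TN.Defs2

/-!
# Projective curves are finite over a line
-/

set_option autoImplicit false

namespace Pool.Agent.Helper63.TN

open MvPolynomial
open Pool.Agent.Helper16 (Place IsFunctionField)
open Pool.Agent.Helper36 (step iter)
open Pool.Agent.Helper38.TQ
open Pool.Agent.Helper30.TKN

variable {ν : ℕ} {k K : Type} [Field k] [Field K] [Algebra k K]

/-- The linear form over `K` with constant coefficients `c`. -/
private noncomputable def clf (K : Type) [Field K] [Algebra k K] (c : Fin (ν + 1) → k) :
    MvPolynomial (Fin (ν + 1)) K :=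
  ∑ i, C (algebraMap k K (c i)) * X i

private theorem clf_add (c : Fin (ν + 1) → k) (i : Fin (ν + 1)) (t : k) :
    clf K (c + Pi.single i t) = clf K c + C (algebraMap k K t) * X i := by
  classical
  unfold clf
  simp only [Pi.add_apply, map_add, add_mul, Finset.sum_add_distrib]
  congr 1
  rw [Finset.sum_eq_single i]
  · simp
  · intro j _ hj
    simp [Pi.single_eq_of_ne hj]
  · intro h; exact absurd (Finset.mem_univ _) h

/-- A nonzero form in three variables does not vanish at some constant point `(-t₀, -t₁, 1)`. -/
private theorem exists_value [Infinite k] {e : ℕ} {P : MvPolynomial (Fin 3) K}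
    (hP : P.IsHomogeneous e) (hP0 : P ≠ 0) :
    ∃ t₀ t₁ : k, eval ![-(algebraMap k K t₀), -(algebraMap k K t₁), 1] P ≠ 0 := by
  classical
  by_contra hcon
  push Not at hcon
  have h1 : P * X 2 = 0 := by
    refine funext_set (fun _ => Set.range (algebraMap k K))
      (fun _ => Set.infinite_range_of_injective (algebraMap k K).injective) fun x hx => ?_
    rw [map_zero, map_mul, eval_X]
    choose y hy using fun j => hx j (Set.mem_univ j)
    rcases eq_or_ne (x 2) 0 with h0 | h0
    · rw [h0, mul_zero]
    · have hy2 : algebraMap k K (y 2) ≠ 0 := by rw [hy 2]; exact h0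
      have h2 := hcon (-(y 0 / y 2)) (-(y 1 / y 2))
      have h3 : x = x 2 • ![-(algebraMap k K (-(y 0 / y 2))), -(algebraMap k K (-(y 1 / y 2))),
          1] := by
        funext j
        fin_cases j
        · simp only [Fin.zero_eta, Pi.smul_apply, Matrix.cons_val_zero, smul_eq_mul, map_neg,
            neg_neg, map_div₀]
          rw [← hy 0, ← hy 2]
          field_simp
        · simp only [Fin.mk_one, Pi.smul_apply, Matrix.cons_val_one, Matrix.cons_val_zero,
            smul_eq_mul, map_neg, neg_neg, map_div₀]
          rw [← hy 1, ← hy 2]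
          field_simp
        · simp
      have h4 : eval x P = 0 := by
        rw [h3]
        have h5 := Pool.Agent.Helper36.aeval_smul_homogeneous hP (x 2)
          ![-(algebraMap k K (-(y 0 / y 2))), -(algebraMap k K (-(y 1 / y 2))), 1]
        rw [show eval (x 2 • ![-(algebraMap k K (-(y 0 / y 2))),
          -(algebraMap k K (-(y 1 / y 2))), 1]) P = aeval (x 2 •
          ![-(algebraMap k K (-(y 0 / y 2))), -(algebraMap k K (-(y 1 / y 2))), 1]) P from
          (congrArg (fun φ => φ P) (coe_aeval_eq_eval _)).symm]
        refine h5.trans ?_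
        rw [show aeval ![-(algebraMap k K (-(y 0 / y 2))), -(algebraMap k K (-(y 1 / y 2))), 1] P =
          eval ![-(algebraMap k K (-(y 0 / y 2))), -(algebraMap k K (-(y 1 / y 2))), 1] P from
          congrArg (fun φ => φ P) (coe_aeval_eq_eval _), h2, mul_zero]
      rw [h4, zero_mul]
  rcases mul_eq_zero.1 h1 with h2 | h2
  · exact hP0 h2
  · exact X_ne_zero _ h2

/-- If any three linear forms satisfy a relation, then two linear forms with coefficients in `k`
generate, together with the ideal, a power of the irrelevant ideal. -/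
theorem fin_of_rel3 [IsAlgClosed k] {I : Ideal (MvPolynomial (Fin (ν + 1)) K)} (h : Rel3 I) :
    ∃ (a₀ a₁ : Fin (ν + 1) → k) (s : ℕ), ∀ i, (X i ^ s : MvPolynomial (Fin (ν + 1)) K) ∈
      I ⊔ Ideal.span {∑ j, C (algebraMap k K (a₀ j)) * X j, ∑ j, C (algebraMap k K (a₁ j)) * X j} := by
  classical
  have : Infinite k := IsAlgClosed.instInfinite
  have key : ∀ S : Finset (Fin (ν + 1)), ∃ c₀ c₁ : Fin (ν + 1) → k,
      ∀ i ∈ S, (X i : MvPolynomial (Fin (ν + 1)) K) ∈
        (I ⊔ Ideal.span {clf K c₀, clf K c₁}).radical := by
    intro S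
    induction S using Finset.induction_on with
    | empty => exact ⟨0, 0, by simp⟩
    | insert i S hi ih =>
      obtain ⟨c₀, c₁, hc⟩ := ih
      obtain ⟨P, e, hP, hP0, hPI⟩ := h ![fun j => algebraMap k K (c₀ j),
        fun j => algebraMap k K (c₁ j), Pi.single i 1]
      obtain ⟨t₀, t₁, ht⟩ := exists_value (k := k) hP hP0
      set c₀' := c₀ + Pi.single i t₀ with hc₀'
      set c₁' := c₁ + Pi.single i t₁ with hc₁'
      set I' := I ⊔ Ideal.span {clf K c₀', clf K c₁'} with hI'
      have hI : I ≤ I' := le_sup_left
      have hl₀ : clf K c₀' ∈ I' := Ideal.mem_sup_right (Ideal.subset_span (Set.mem_insert _ _))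
      have hl₁ : clf K c₁' ∈ I' := Ideal.mem_sup_right
        (Ideal.subset_span (Set.mem_insert_of_mem _ rfl))
      have hlX₀ : clf K c₀ = clf K c₀' + C (-(algebraMap k K t₀)) * X i := by
        rw [hc₀', clf_add, map_neg]
        ring
      have hlX₁ : clf K c₁ = clf K c₁' + C (-(algebraMap k K t₁)) * X i := by
        rw [hc₁', clf_add, map_neg]
        ring
      have hX : (X i : MvPolynomial (Fin (ν + 1)) K) ∈ I'.radical := by
        refine ⟨e, ?_⟩
        have h1 : Ideal.Quotient.mk I' (aeval (fun j => ∑ i', C (![fun j => algebraMap k K (c₀ j),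
            fun j => algebraMap k K (c₁ j), Pi.single i 1] j i') * X i' :
            Fin 3 → MvPolynomial (Fin (ν + 1)) K) P) = 0 :=
          Ideal.Quotient.eq_zero_iff_mem.2 (hI hPI)
        have h3 : ∀ p : MvPolynomial (Fin (ν + 1)) K, Ideal.Quotient.mk I' p =
            Ideal.Quotient.mkₐ K I' p := fun _ => rfl
        rw [h3, MvPolynomial.comp_aeval_apply] at h1
        have h4 : (fun j => Ideal.Quotient.mkₐ K I' (∑ i', C (![fun j => algebraMap k K (c₀ j),
            fun j => algebraMap k K (c₁ j), Pi.single i 1] j i') * X i' :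
            MvPolynomial (Fin (ν + 1)) K)) = fun j => Ideal.Quotient.mkₐ K I' (X i) *
              algebraMap K _ (![-(algebraMap k K t₀), -(algebraMap k K t₁), (1 : K)] j) := by
          funext j
          fin_cases j
          · have h5 : Ideal.Quotient.mkₐ K I' (clf K c₀) = Ideal.Quotient.mkₐ K I' (X i) *
                algebraMap K _ (-(algebraMap k K t₀)) := by
              rw [hlX₀, map_add, map_mul]
              have h6 : Ideal.Quotient.mkₐ K I' (clf K c₀') = 0 :=
                Ideal.Quotient.eq_zero_iff_mem.2 hl₀
              rw [h6, zero_add, mul_comm]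
              congr 1
            exact h5
          · have h5 : Ideal.Quotient.mkₐ K I' (clf K c₁) = Ideal.Quotient.mkₐ K I' (X i) *
                algebraMap K _ (-(algebraMap k K t₁)) := by
              rw [hlX₁, map_add, map_mul]
              have h6 : Ideal.Quotient.mkₐ K I' (clf K c₁') = 0 :=
                Ideal.Quotient.eq_zero_iff_mem.2 hl₁
              rw [h6, zero_add, mul_comm]
              congr 1
            exact h5
          · have h5 : (∑ i', C ((Pi.single i 1 : Fin (ν + 1) → K) i') * X i' :
                MvPolynomial (Fin (ν + 1)) K) = X i := by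
              rw [Finset.sum_eq_single i]
              · simp
              · intro j _ hj
                simp [Pi.single_eq_of_ne hj]
              · intro h; exact absurd (Finset.mem_univ _) h
            change Ideal.Quotient.mkₐ K I' (∑ i', C ((Pi.single i 1 : Fin (ν + 1) → K) i') * X i') =
              Ideal.Quotient.mkₐ K I' (X i) * algebraMap K _ (1 : K)
            rw [h5, map_one, mul_one]
        rw [h4, Pool.Agent.Helper36.aeval_smul_homogeneous hP] at h1
        have h5 : aeval (fun j => algebraMap K (MvPolynomial (Fin (ν + 1)) K ⧸ I')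
            (![-(algebraMap k K t₀), -(algebraMap k K t₁), (1 : K)] j)) P =
            algebraMap K _ (eval ![-(algebraMap k K t₀), -(algebraMap k K t₁), 1] P) := by
          have h6 := aeval_algebraMap_apply (B := MvPolynomial (Fin (ν + 1)) K ⧸ I')
            (![-(algebraMap k K t₀), -(algebraMap k K t₁), (1 : K)]) P
          refine Eq.trans h6 ?_
          exact congrArg _ (congrArg (fun φ => φ P) (coe_aeval_eq_eval _))
        rw [h5] at h1
        have h6 : Ideal.Quotient.mkₐ K I' (X i) ^ e = 0 := by
          have h7 := congrArg (fun w => w * algebraMap K (MvPolynomial (Fin (ν + 1)) K ⧸ I')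
            (eval ![-(algebraMap k K t₀), -(algebraMap k K t₁), 1] P)⁻¹) h1
          simp only [zero_mul] at h7
          rwa [mul_assoc, ← map_mul, mul_inv_cancel₀ ht, map_one, mul_one] at h7
        rw [← map_pow] at h6
        exact Ideal.Quotient.eq_zero_iff_mem.1 h6
      have hlr₀ : clf K c₀ ∈ I'.radical := by
        rw [hlX₀]
        exact I'.radical.add_mem (Ideal.le_radical hl₀) (I'.radical.mul_mem_left _ hX)
      have hlr₁ : clf K c₁ ∈ I'.radical := by
        rw [hlX₁]
        exact I'.radical.add_mem (Ideal.le_radical hl₁) (I'.radical.mul_mem_left _ hX)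
      refine ⟨c₀', c₁', fun j hj => ?_⟩
      rw [Finset.mem_insert] at hj
      rcases hj with rfl | hj
      · exact hX
      · have h1 : I ⊔ Ideal.span {clf K c₀, clf K c₁} ≤ I'.radical := by
          refine sup_le (hI.trans Ideal.le_radical) ?_
          rw [Ideal.span_le]
          rintro w (rfl | rfl)
          · exact hlr₀
          · exact hlr₁
        have h2 := Ideal.radical_mono h1 (hc j hj)
        rwa [Ideal.radical_idem] at h2
  obtain ⟨c₀, c₁, hc⟩ := key Finset.univ
  choose n hn using fun i => hc i (Finset.mem_univ i)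
  refine ⟨c₀, c₁, ∑ i, n i, fun i => ?_⟩
  have h1 : n i ≤ ∑ i, n i := Finset.single_le_sum (fun _ _ => Nat.zero_le _) (Finset.mem_univ i)
  obtain ⟨r, hr⟩ := Nat.exists_eq_add_of_le h1
  rw [hr, pow_add]
  exact Ideal.mul_mem_right _ _ (hn i)

end Pool.Agent.Helper63.TN
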