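import Pool.Agent.Helper63.TN.Defs2
import Pool.Agent.Helper89.TNL.ZD

/-!
# Binary forms modulo the ideal of a curve and a form
-/

set_option autoImplicit false

namespace Pool.Agent.Helper63.TN

open MvPolynomial

variable {ν : ℕ} {K : Type} [Field K]

/-- Binary forms in two coordinates. -/
theorem exists_binary {I : Ideal (MvPolynomial (Fin (ν + 1)) K)} (hI : IsCurve I)
    {Q : MvPolynomial (Fin (ν + 1)) K} {m : ℕ} (hQ : Q.IsHomogeneous m) (hQI : Q ∉ I)
    (a p : Fin (ν + 1)) :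
    ∃ (n : ℕ) (ρ : MvPolynomial (Fin 2) K), ρ.IsHomogeneous n ∧ ρ ≠ 0 ∧
      aeval (![X a, X p] : Fin 2 → MvPolynomial (Fin (ν + 1)) K) ρ ∈ I ⊔ Ideal.span {Q} := by
  classical
  obtain ⟨ρ, n, h0, h1, h2⟩ := Pool.Agent.Helper89.TNL.zeroDim hI.prime hI.hom hI.fin hQ hQI
    (Pi.single a 1) (Pi.single p 1)
  have h3 : ∀ a : Fin (ν + 1), (∑ j, C ((Pi.single a (1 : K) : Fin (ν + 1) → K) j) * X j :
      MvPolynomial (Fin (ν + 1)) K) = X a := by
    intro a
    rw [Finset.sum_eq_single a]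
    · rw [Pi.single_eq_same, C_1, one_mul]
    · intro j _ hj
      rw [Pi.single_eq_of_ne hj, C_0, zero_mul]
    · intro h
      exact absurd (Finset.mem_univ a) h
  rw [h3, h3] at h2
  exact ⟨n, ρ, h1, h0, h2⟩

end Pool.Agent.Helper63.TN
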