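import Pool.Agent.Helper63.TN.Defs2
import Pool.Agent.Helper16.TW1

/-!
# Heights over extensions
-/

set_option autoImplicit false

namespace Pool.Agent.Helper63.TN

open MvPolynomial
open Pool.Agent.Helper16 (Place IsFunctionField)
open Pool.Agent.Helper36 (step iter iter_succ iter_succ' iter_zero iter_add exists_nullstellensatz)
open Pool.Agent.Helper38.TQ
open Pool.Agent.Helper30.TKN

section

/-- The number of poles of a transcendental function. -/
theorem htExt_finsum {k K : Type} [Field k] [Field K] [Algebra k K] [IsAlgClosed k]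
    (hK : IsFunctionField k K) (a : K) (ha : Transcendental k a) :
    (Function.support fun b : Place k K => max 0 (WithZero.log (b.val a))).Finite ∧
    ∑ᶠ b : Place k K, max 0 (WithZero.log (b.val a)) =
      (Module.finrank (IntermediateField.adjoin k {a}) K : ℤ) := by
  have ha0 : a ≠ 0 := by
    rintro rfl
    exact ha isAlgebraic_zero
  obtain ⟨S, h1, h2, -⟩ := hK.zeros a⁻¹ (Pool.Agent.Helper16.transcendental_inv ha)
  rw [Pool.Agent.Helper16.finrank_inv] at h2
  have hS : ∀ v : Place k K, v ∈ S ↔ 0 < WithZero.log (v.val a) := by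
    intro v
    rw [h1, ← v.ord_pos_iff (inv_ne_zero ha0), v.ord_inv]
    show 0 < - -WithZero.log (v.val a) ↔ _
    rw [neg_neg]
  have h3 : Function.support (fun b : Place k K => max 0 (WithZero.log (b.val a))) ⊆
      (S : Set (Place k K)) := by
    intro b hb
    rw [Finset.mem_coe, hS]
    by_contra h
    exact hb (max_eq_left (not_lt.1 h))
  refine ⟨S.finite_toSet.subset h3, ?_⟩
  rw [finsum_eq_sum_of_support_subset _ h3, ← h2]
  refine Finset.sum_congr rfl fun v hv => ?_
  have h4 : v.ord a⁻¹ = WithZero.log (v.val a) := by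
    rw [v.ord_inv]
    show - -WithZero.log (v.val a) = _
    rw [neg_neg]
  rw [h4, max_eq_right ((hS v).1 hv).le, deg_eq_one hK v]
  simp

/-- Algebraic elements have no poles. -/
theorem htExt_alg {k K : Type} [Field k] [Field K] [Algebra k K]
    (a : K) (ha : IsAlgebraic k a) (b : Place k K) :
    max 0 (WithZero.log (b.val a)) = 0 := by
  by_cases ha0 : a = 0
  · subst ha0
    simp
  · rw [b.val_eq_one_of_algebraic ha ha0]
    simp

variable {k K : Type} [Field k] [Field K] [Algebra k K] (L : Type) [Field L] [Algebra k L]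
  [Algebra K L] [IsScalarTower k K L] [FiniteDimensional K L]

omit [FiniteDimensional K L] in
theorem htExt_finrank (a : K) :
    Module.finrank (IntermediateField.adjoin k {algebraMap K L a}) L =
      Module.finrank K L * Module.finrank (IntermediateField.adjoin k {a}) K := by
  let F := IntermediateField.adjoin k {a}
  have h1 : Module.finrank F K * Module.finrank K L = Module.finrank F L :=
    Module.finrank_mul_finrank F K L
  have h2 : F.map (IsScalarTower.toAlgHom k K L) =
      IntermediateField.adjoin k {algebraMap K L a} := by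
    rw [IntermediateField.adjoin_map, Set.image_singleton]
    rfl
  rw [← h2, mul_comm, h1]
  symm
  refine Algebra.finrank_eq_of_equiv_equiv
    (IntermediateField.equivMap F (IsScalarTower.toAlgHom k K L)).toRingEquiv
    (RingEquiv.refl L) ?_
  ext x
  rfl

theorem htExt_ff (hK : IsFunctionField k K) : IsFunctionField k L := by
  exact Pool.Agent.Helper16.IsFunctionField.of_finite hK

/-- The number of poles, with multiplicities, is multiplied by the degree. -/
theorem htExt_pos_log [IsAlgClosed k] (hK : IsFunctionField k K) (a : K) :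
    (Function.support fun v : Place k L =>
      max 0 (WithZero.log (v.val (algebraMap K L a)))).Finite ∧
    ∑ᶠ v : Place k L, max 0 (WithZero.log (v.val (algebraMap K L a))) =
      (Module.finrank K L : ℤ) * ∑ᶠ b : Place k K, max 0 (WithZero.log (b.val a)) := by
  by_cases ha : IsAlgebraic k a
  · have h1 : IsAlgebraic k (algebraMap K L a) := ha.algebraMap
    have h2 : (fun v : Place k L => max 0 (WithZero.log (v.val (algebraMap K L a)))) =
        fun _ => 0 := funext fun v => htExt_alg _ h1 v
    have h3 : (fun v : Place k K => max 0 (WithZero.log (v.val a))) =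
        fun _ => 0 := funext fun v => htExt_alg _ ha v
    rw [h2, h3]
    simp
  · have h1 : Transcendental k (algebraMap K L a) := by
      intro h
      exact ha ((isAlgebraic_algebraMap_iff (algebraMap K L).injective).1 h)
    obtain ⟨h2, h3⟩ := htExt_finsum (htExt_ff L hK) _ h1
    obtain ⟨-, h4⟩ := htExt_finsum hK a ha
    refine ⟨h2, ?_⟩
    rw [h3, h4, htExt_finrank]
    push_cast
    rfl

end

section

variable {ν : ℕ} {k K : Type} [Field k] [IsAlgClosed k] [Field K] [Algebra k K]

omit [IsAlgClosed k] [Algebra k K] in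
/-- The logarithm of the Gauss norm is at most the sum over the coefficients. -/
theorem htExt_log_gs_le {L : Type} [Field L] [Algebra k L] [Algebra K L]
    (v : Place k L) (P : MvPolynomial (Fin (ν + 1)) K) :
    max 0 (WithZero.log (gs v (map (algebraMap K L) P))) ≤
      ∑ m ∈ P.support, max 0 (WithZero.log (v.val (algebraMap K L (P.coeff m)))) := by
  have hnn : ∀ m ∈ P.support,
      0 ≤ max 0 (WithZero.log (v.val (algebraMap K L (P.coeff m)))) := fun m _ => le_max_left _ _
  refine max_le (Finset.sum_nonneg hnn) ?_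
  by_cases hP : map (algebraMap K L) P = 0
  · rw [hP, formHeight_zero, WithZero.log_zero]
    exact Finset.sum_nonneg hnn
  · obtain ⟨m, hm, hgs⟩ := formHeight_exists (b := v) hP
    rw [coeff_map] at hm hgs
    rw [hgs]
    have hm' : m ∈ P.support := by
      rw [mem_support_iff]
      intro h0
      rw [h0, map_zero] at hm
      exact hm rfl
    exact le_trans (le_max_right _ _) (Finset.single_le_sum hnn hm')

/-- The Gauss norms of a polynomial over all finite extensions. -/
theorem htExt_gs_bound (hK : IsFunctionField k K) (P : MvPolynomial (Fin (ν + 1)) K) :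
    ∃ C : ℤ, 0 ≤ C ∧ ∀ (L : Type) [Field L] [Algebra k L] [Algebra K L] [IsScalarTower k K L]
      [FiniteDimensional K L],
      (Function.support fun v : Place k L =>
        max 0 (WithZero.log (gs v (map (algebraMap K L) P)))).Finite ∧
      ∑ᶠ v : Place k L, max 0 (WithZero.log (gs v (map (algebraMap K L) P))) ≤
        C * (Module.finrank K L : ℤ) := by
  refine ⟨∑ m ∈ P.support, ∑ᶠ b : Place k K, max 0 (WithZero.log (b.val (P.coeff m))),
    Finset.sum_nonneg fun m _ => finsum_nonneg fun b => le_max_left _ _, ?_⟩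
  intro L _ _ _ _ _
  have hfin : ∀ m ∈ P.support, (Function.support fun v : Place k L =>
      max 0 (WithZero.log (v.val (algebraMap K L (P.coeff m))))).Finite :=
    fun m _ => (htExt_pos_log L hK (P.coeff m)).1
  have hU : (⋃ m ∈ P.support, Function.support fun v : Place k L =>
      max 0 (WithZero.log (v.val (algebraMap K L (P.coeff m))))).Finite :=
    Set.Finite.biUnion P.support.finite_toSet hfin
  have hsub : ∀ f : Place k L → ℤ, (∀ v, 0 ≤ f v) → (∀ v, f v ≤
      ∑ m ∈ P.support, max 0 (WithZero.log (v.val (algebraMap K L (P.coeff m))))) →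
      (Function.support f).Finite := by
    intro f hf0 hf
    refine hU.subset ?_
    intro v hv
    rw [Function.mem_support] at hv
    have h1 : 0 < ∑ m ∈ P.support, max 0 (WithZero.log (v.val (algebraMap K L (P.coeff m)))) :=
      lt_of_lt_of_le (lt_of_le_of_ne (hf0 v) (Ne.symm hv)) (hf v)
    obtain ⟨m, hm, hne⟩ := Finset.exists_ne_zero_of_sum_ne_zero h1.ne'
    exact Set.mem_biUnion hm hne
  have h1 := hsub _ (fun v => le_max_left _ _) (fun v => htExt_log_gs_le v P)
  refine ⟨h1, ?_⟩
  have h2 := hsub _ (fun v => Finset.sum_nonneg fun m _ => le_max_left _ _) (fun v => le_rfl)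
  calc ∑ᶠ v : Place k L, max 0 (WithZero.log (gs v (map (algebraMap K L) P)))
      ≤ ∑ᶠ v : Place k L, ∑ m ∈ P.support,
          max 0 (WithZero.log (v.val (algebraMap K L (P.coeff m)))) :=
        finsum_le_finsum' h1 h2 fun v => htExt_log_gs_le v P
    _ = ∑ m ∈ P.support, ∑ᶠ v : Place k L,
          max 0 (WithZero.log (v.val (algebraMap K L (P.coeff m)))) := finsum_sum_comm _ _ hfin
    _ = ∑ m ∈ P.support, (∑ᶠ b : Place k K, max 0 (WithZero.log (b.val (P.coeff m)))) *
          (Module.finrank K L : ℤ) := by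
        refine Finset.sum_congr rfl fun m _ => ?_
        rw [(htExt_pos_log L hK (P.coeff m)).2, mul_comm]
    _ = _ := by rw [Finset.sum_mul]

end

section

variable {ν : ℕ} {K : Type} [Field K]

/-- The certificate at a point over an extension. -/
theorem htExt_cert {d : ℕ} {F : Fin (ν + 1) → MvPolynomial (Fin (ν + 1)) K} {M : ℕ}
    {q : Fin (ν + 1) × Fin (ν + 1) → MvPolynomial (Fin (ν + 1)) K}
    (h : ∀ a, ∑ j, q (a, j) * F j = MvPolynomial.X a ^ (M + d)) {L : Type} [Field L] [Algebra K L]
    (y : Fin (ν + 1) → L) (a : Fin (ν + 1)) :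
    y a ^ (M + d) = ∑ j, eval y (map (algebraMap K L) (q (a, j))) * step F y j := by
  have h2 := congrArg (aeval y) (h a)
  rw [map_pow, aeval_X, map_sum] at h2
  rw [← h2]
  refine Finset.sum_congr rfl fun j _ => ?_
  rw [map_mul, eval_map, aeval_def, aeval_def]
  rfl

theorem step_ne_zeroL [Algebra K ℂ] {d : ℕ} {F : Fin (ν + 1) → MvPolynomial (Fin (ν + 1)) K}
    (hF : IsEndo d fun i => map (algebraMap K ℂ) (F i)) {L : Type} [Field L] [Algebra K L]
    {y : Fin (ν + 1) → L} (hy : y ≠ 0) : step F y ≠ 0 := by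
  obtain ⟨M, q, hq, h⟩ := exists_nullstellensatz (L := ℂ) F (fun i => homog_of_endo hF i)
    (growth_aeval_zero hF)
  intro h0
  apply hy
  funext a
  have h1 := htExt_cert h y a
  rw [h0] at h1
  simp only [Pi.zero_apply, mul_zero, Finset.sum_const_zero] at h1
  exact (pow_eq_zero_iff (by have := hF.two_le; omega)).1 h1

theorem iter_ne_zeroL [Algebra K ℂ] {d : ℕ} {F : Fin (ν + 1) → MvPolynomial (Fin (ν + 1)) K}
    (hF : IsEndo d fun i => map (algebraMap K ℂ) (F i)) {L : Type} [Field L] [Algebra K L]
    {y : Fin (ν + 1) → L} (hy : y ≠ 0) (n : ℕ) : iter F y n ≠ 0 := by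
  induction n with
  | zero => exact hy
  | succ n ih =>
    rw [iter_succ]
    exact step_ne_zeroL hF ih

theorem iter_smulL {d : ℕ} {F : Fin (ν + 1) → MvPolynomial (Fin (ν + 1)) K}
    (hF : ∀ i, (F i).IsHomogeneous d) {L : Type} [Field L] [Algebra K L]
    (c : L) (y : Fin (ν + 1) → L) (n : ℕ) : iter F (c • y) n = c ^ d ^ n • iter F y n := by
  induction n with
  | zero => simp [iter_zero]
  | succ n ih =>
    rw [iter_succ, iter_succ, ih]
    funext i
    rw [Pi.smul_apply, smul_eq_mul, pow_succ, pow_mul]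
    exact Pool.Agent.Helper36.aeval_smul_homogeneous (hF i) (c ^ d ^ n) (iter F y n)

end

variable {ν : ℕ} {k K : Type} [Field k] [Field K] [Algebra k K]

/-- The height of the image of a point, uniformly for all finite extensions. -/
theorem growth_ext [IsAlgClosed k] [Algebra K ℂ] (hK : IsFunctionField k K) {d : ℕ}
    {F : Fin (ν + 1) → MvPolynomial (Fin (ν + 1)) K}
    (hF : IsEndo d fun i => map (algebraMap K ℂ) (F i)) :
    ∃ B : ℤ, 0 ≤ B ∧ ∀ (L : Type) [Field L] [Algebra k L] [Algebra K L] [IsScalarTower k K L]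
      [FiniteDimensional K L] (y : Fin (ν + 1) → L), y ≠ 0 → step F y ≠ 0 ∧
        |ht k (step F y) - d * ht k y| ≤ B * (Module.finrank K L : ℤ) := by
  classical
  have hhom := fun i => homog_of_endo hF i
  obtain ⟨M, q, hq, h⟩ := exists_nullstellensatz (L := ℂ) F hhom (growth_aeval_zero hF)
  choose C hC0 hC using fun a : Fin (ν + 1) × Fin (ν + 1) => htExt_gs_bound hK (q a)
  choose D hD0 hD using fun a : Fin (ν + 1) => htExt_gs_bound hK (F a)
  refine ⟨∑ a, D a + ∑ a, C a, add_nonneg (Finset.sum_nonneg fun a _ => hD0 a)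
    (Finset.sum_nonneg fun a _ => hC0 a), ?_⟩
  intro L _ _ _ _ _ y hy
  have hL : IsFunctionField k L := htExt_ff L hK
  have hs := step_ne_zeroL hF hy
  refine ⟨hs, ?_⟩
  set c₁ : Place k L → ℤ := fun v =>
    ∑ a : Fin (ν + 1), max 0 (WithZero.log (gs v (map (algebraMap K L) (F a)))) with hc₁
  set c₂ : Place k L → ℤ := fun v =>
    ∑ a : Fin (ν + 1) × Fin (ν + 1),
      max 0 (WithZero.log (gs v (map (algebraMap K L) (q a)))) with hc₂
  have hc1 : ∀ v, 0 ≤ c₁ v := fun v => Finset.sum_nonneg fun i _ => le_max_left _ _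
  have hc2 : ∀ v, 0 ≤ c₂ v := fun v => Finset.sum_nonneg fun i _ => le_max_left _ _
  have hcs1 : (Function.support c₁).Finite := by
    refine (Set.finite_iUnion fun a : Fin (ν + 1) => (hD a L).1).subset fun v hv => ?_
    rw [Function.mem_support] at hv
    by_contra hcon
    apply hv
    simp only [Set.mem_iUnion, Function.mem_support, not_exists, not_not] at hcon
    simp only [hc₁]
    exact Finset.sum_eq_zero fun a _ => hcon a
  have hcs2 : (Function.support c₂).Finite := by
    refine (Set.finite_iUnion fun a : Fin (ν + 1) × Fin (ν + 1) => (hC a L).1).subset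
      fun v hv => ?_
    rw [Function.mem_support] at hv
    by_contra hcon
    apply hv
    simp only [Set.mem_iUnion, Function.mem_support, not_exists, not_not] at hcon
    simp only [hc₂]
    exact Finset.sum_eq_zero fun a _ => hcon a
  set c : Place k L → ℤ := fun v => c₁ v + c₂ v with hc
  have hcs : (Function.support c).Finite := (hcs1.union hcs2).subset (Function.support_add _ _)
  have hsum : ∑ᶠ v : Place k L, c v ≤ (∑ a, D a + ∑ a, C a) * (Module.finrank K L : ℤ) := by
    have e1 : ∑ᶠ v : Place k L, c₁ v ≤ (∑ a, D a) * (Module.finrank K L : ℤ) := by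
      rw [hc₁, finsum_sum_comm _ _ fun a _ => (hD a L).1, Finset.sum_mul]
      exact Finset.sum_le_sum fun a _ => (hD a L).2
    have e2 : ∑ᶠ v : Place k L, c₂ v ≤ (∑ a, C a) * (Module.finrank K L : ℤ) := by
      rw [hc₂, finsum_sum_comm _ _ fun a _ => (hC a L).1, Finset.sum_mul]
      exact Finset.sum_le_sum fun a _ => (hC a L).2
    rw [hc, finsum_add_distrib hcs1 hcs2, add_mul]
    exact add_le_add e1 e2
  have hcF : ∀ (v : Place k L) i, gs v (map (algebraMap K L) (F i)) ≤ WithZero.exp (c v) := by
    intro v i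
    apply WithZero.le_exp_of_log_le
    have h1 : max 0 (WithZero.log (gs v (map (algebraMap K L) (F i)))) ≤ c₁ v :=
      Finset.single_le_sum
        (f := fun a => max 0 (WithZero.log (gs v (map (algebraMap K L) (F a)))))
        (fun i _ => le_max_left _ _) (Finset.mem_univ i)
    have h2 := le_max_right 0 (WithZero.log (gs v (map (algebraMap K L) (F i))))
    have h3 := hc2 v
    simp only [hc]
    linarith
  have hcq : ∀ (v : Place k L) a, gs v (map (algebraMap K L) (q a)) ≤ WithZero.exp (c v) := by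
    intro v a
    apply WithZero.le_exp_of_log_le
    have h1 : max 0 (WithZero.log (gs v (map (algebraMap K L) (q a)))) ≤ c₂ v :=
      Finset.single_le_sum
        (f := fun a => max 0 (WithZero.log (gs v (map (algebraMap K L) (q a)))))
        (fun i _ => le_max_left _ _) (Finset.mem_univ a)
    have h2 := le_max_right 0 (WithZero.log (gs v (map (algebraMap K L) (q a))))
    have h3 := hc1 v
    simp only [hc]
    linarith
  have hloc : ∀ v : Place k L,
      |WithZero.log (nrm v (step F y)) - (d : ℤ) * WithZero.log (nrm v y)| ≤ c v := by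
    intro v
    have hn0 := nrm_ne_zero (b := v) hy
    have hs0 := nrm_ne_zero (b := v) hs
    have he0 : WithZero.exp (c v) ≠ 0 := WithZero.exp_ne_zero
    rw [abs_le]
    constructor
    · obtain ⟨i, hi⟩ := exists_val_eq_nrm v y
      have h1 : v.val (y i ^ (M + d)) ≤
          WithZero.exp (c v) * nrm v y ^ M * nrm v (step F y) := by
        rw [htExt_cert h y i]
        refine v.val.map_sum_le fun j _ => ?_
        rw [map_mul]
        exact mul_le_mul' ((low_val_eval_le v ((hq _).map _) y).trans
          (mul_le_mul' (hcq v _) le_rfl)) (val_le_nrm v (step F y) j)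
      rw [map_pow, hi, ← WithZero.log_le_log (pow_ne_zero _ hn0)
        (mul_ne_zero (mul_ne_zero he0 (pow_ne_zero _ hn0)) hs0),
        WithZero.log_mul (mul_ne_zero he0 (pow_ne_zero _ hn0)) hs0,
        WithZero.log_mul he0 (pow_ne_zero _ hn0), WithZero.log_exp, WithZero.log_pow,
        WithZero.log_pow, nsmul_eq_mul, nsmul_eq_mul] at h1
      push_cast at h1
      linarith
    · have h1 : nrm v (step F y) ≤ WithZero.exp (c v) * nrm v y ^ d := by
        refine nrm_le fun i => ?_
        have h3 : eval y (map (algebraMap K L) (F i)) = step F y i := by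
          rw [eval_map]
          rfl
        rw [← h3]
        exact (low_val_eval_le v ((hhom i).map _) y).trans (mul_le_mul' (hcF v i) le_rfl)
      rw [← WithZero.log_le_log hs0 (mul_ne_zero he0 (pow_ne_zero _ hn0)),
        WithZero.log_mul he0 (pow_ne_zero _ hn0), WithZero.log_exp, WithZero.log_pow,
        nsmul_eq_mul] at h1
      linarith
  have h1 := nrm_support hL y hy
  have h2 := nrm_support hL _ hs
  have h3 : (Function.support fun v : Place k L => (d : ℤ) * WithZero.log (nrm v y)).Finite := by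
    refine h1.subset fun b hb => ?_
    rw [Function.mem_support] at hb ⊢
    exact right_ne_zero_of_mul hb
  unfold ht
  rw [mul_finsum, abs_le]
  constructor
  · have h4 : ∑ᶠ v : Place k L, (d : ℤ) * WithZero.log (nrm v y) ≤
        ∑ᶠ v : Place k L, (WithZero.log (nrm v (step F y)) + c v) := by
      refine finsum_le_finsum' h3 ((h2.union hcs).subset (Function.support_add _ _)) fun v => ?_
      have := (abs_le.1 (hloc v)).1
      linarith
    rw [finsum_add_distrib h2 hcs] at h4
    linarith
  · have h4 : ∑ᶠ v : Place k L, WithZero.log (nrm v (step F y)) ≤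
        ∑ᶠ v : Place k L, ((d : ℤ) * WithZero.log (nrm v y) + c v) := by
      refine finsum_le_finsum' h2 ((h3.union hcs).subset (Function.support_add _ _)) fun v => ?_
      have := (abs_le.1 (hloc v)).2
      linarith
    rw [finsum_add_distrib h3 hcs] at h4
    linarith

/-- Heights of iterates, a precise form. -/
theorem ht_iter_ext' [IsAlgClosed k] [Algebra K ℂ] (hK : IsFunctionField k K) {d : ℕ}
    {F : Fin (ν + 1) → MvPolynomial (Fin (ν + 1)) K}
    (hF : IsEndo d fun i => map (algebraMap K ℂ) (F i)) :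
    ∃ B : ℤ, 0 ≤ B ∧ ∀ (L : Type) [Field L] [Algebra k L] [Algebra K L] [IsScalarTower k K L]
      [FiniteDimensional K L] (y : Fin (ν + 1) → L), y ≠ 0 → ∀ N : ℕ, iter F y N ≠ 0 ∧
        |ht k (iter F y N) - (d : ℤ) ^ N * ht k y| ≤
          B * ((d : ℤ) ^ N - 1) * (Module.finrank K L : ℤ) := by
  obtain ⟨B, hB0, hB⟩ := growth_ext hK hF
  refine ⟨B, hB0, ?_⟩
  intro L _ _ _ _ _ y hy N
  refine ⟨iter_ne_zeroL hF hy N, ?_⟩
  have hd : (2 : ℤ) ≤ d := by exact_mod_cast hF.two_le
  have hf : (0 : ℤ) ≤ B * (Module.finrank K L : ℤ) := mul_nonneg hB0 (by positivity)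
  induction N with
  | zero => simp [iter_zero]
  | succ N ih =>
    have h1 := (hB L (iter F y N) (iter_ne_zeroL hF hy N)).2
    rw [← iter_succ] at h1
    have h2 : |(d : ℤ) * ht k (iter F y N) - d * ((d : ℤ) ^ N * ht k y)| ≤
        d * (B * ((d : ℤ) ^ N - 1) * (Module.finrank K L : ℤ)) := by
      rw [← mul_sub, abs_mul, abs_of_nonneg (by linarith : (0 : ℤ) ≤ d)]
      exact mul_le_mul_of_nonneg_left ih (by linarith)
    have h3 := abs_add_le (ht k (iter F y (N + 1)) - d * ht k (iter F y N))
      ((d : ℤ) * ht k (iter F y N) - d * ((d : ℤ) ^ N * ht k y))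
    have h4 : ht k (iter F y (N + 1)) - d * ht k (iter F y N) +
        ((d : ℤ) * ht k (iter F y N) - d * ((d : ℤ) ^ N * ht k y)) =
        ht k (iter F y (N + 1)) - (d : ℤ) ^ (N + 1) * ht k y := by ring
    rw [h4] at h3
    have h5 : B * (Module.finrank K L : ℤ) +
        d * (B * ((d : ℤ) ^ N - 1) * (Module.finrank K L : ℤ)) ≤
        B * ((d : ℤ) ^ (N + 1) - 1) * (Module.finrank K L : ℤ) := by
      have h6 : B * ((d : ℤ) ^ (N + 1) - 1) * (Module.finrank K L : ℤ) -
          (B * (Module.finrank K L : ℤ) +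
            d * (B * ((d : ℤ) ^ N - 1) * (Module.finrank K L : ℤ))) =
          (B * (Module.finrank K L : ℤ)) * ((d : ℤ) - 2) := by ring
      have h7 : 0 ≤ (B * (Module.finrank K L : ℤ)) * ((d : ℤ) - 2) :=
        mul_nonneg hf (by linarith)
      linarith
    linarith

/-- Heights of iterates. -/
theorem ht_iter_ext [IsAlgClosed k] [Algebra K ℂ] (hK : IsFunctionField k K) {d : ℕ}
    {F : Fin (ν + 1) → MvPolynomial (Fin (ν + 1)) K}
    (hF : IsEndo d fun i => map (algebraMap K ℂ) (F i)) :
    ∃ B : ℤ, 0 ≤ B ∧ ∀ (L : Type) [Field L] [Algebra k L] [Algebra K L] [IsScalarTower k K L]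
      [FiniteDimensional K L] (y : Fin (ν + 1) → L), y ≠ 0 → ∀ N : ℕ, iter F y N ≠ 0 ∧
        |ht k (iter F y N) - d ^ N * ht k y| ≤ B * d ^ N * (Module.finrank K L : ℤ) := by
  obtain ⟨B, hB0, hB⟩ := ht_iter_ext' hK hF
  refine ⟨B, hB0, ?_⟩
  intro L _ _ _ _ _ y hy N
  obtain ⟨h1, h2⟩ := hB L y hy N
  refine ⟨h1, h2.trans ?_⟩
  have h3 : (0 : ℤ) ≤ B * (Module.finrank K L : ℤ) := mul_nonneg hB0 (by positivity)
  have h4 : B * ((d : ℤ) ^ N - 1) * (Module.finrank K L : ℤ) =
      B * (d : ℤ) ^ N * (Module.finrank K L : ℤ) - B * (Module.finrank K L : ℤ) := by ring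
  linarith

/-- Heights of periodic points. -/
theorem ht_per [IsAlgClosed k] [Algebra K ℂ] (hK : IsFunctionField k K) {d : ℕ}
    {F : Fin (ν + 1) → MvPolynomial (Fin (ν + 1)) K}
    (hF : IsEndo d fun i => map (algebraMap K ℂ) (F i)) :
    ∃ B : ℤ, 0 ≤ B ∧ ∀ (L : Type) [Field L] [Algebra k L] [Algebra K L] [IsScalarTower k K L]
      [FiniteDimensional K L] (w : Fin (ν + 1) → L), w ≠ 0 → IsPer F w → ∀ m : ℕ,
        ht k (iter F w m) ≤ B * (Module.finrank K L : ℤ) := by
  obtain ⟨B, hB0, hB⟩ := ht_iter_ext' hK hF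
  refine ⟨B, hB0, ?_⟩
  intro L _ _ _ _ _ w hw hper m
  obtain ⟨M, hM, γ, hγ⟩ := hper
  have hL : IsFunctionField k L := htExt_ff L hK
  have hhom : ∀ i, (F i).IsHomogeneous d := fun i => homog_of_endo hF i
  have hd : (2 : ℤ) ≤ d := by exact_mod_cast hF.two_le
  have hy : iter F w m ≠ 0 := iter_ne_zeroL hF hw m
  have hper' : iter F (iter F w m) M = γ ^ d ^ m • iter F w m := by
    rw [← iter_add, Nat.add_comm M m, iter_add, hγ, iter_smulL hhom]
  have hγ0 : γ ^ d ^ m ≠ 0 := by
    intro h0
    rw [h0, zero_smul] at hper'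
    exact iter_ne_zeroL hF hy M hper'
  have h1 := (abs_le.1 (hB L (iter F w m) hy M).2).1
  rw [hper', ht_smul hL hγ0 hy] at h1
  have h2 : (2 : ℤ) ≤ (d : ℤ) ^ M := by
    calc (2 : ℤ) ≤ d := hd
      _ = (d : ℤ) ^ 1 := (pow_one _).symm
      _ ≤ (d : ℤ) ^ M := pow_le_pow_right₀ (by linarith) hM
  have h3 : ((d : ℤ) ^ M - 1) * ht k (iter F w m) ≤
      ((d : ℤ) ^ M - 1) * (B * (Module.finrank K L : ℤ)) := by
    have h4 : ((d : ℤ) ^ M - 1) * ht k (iter F w m) =
        (d : ℤ) ^ M * ht k (iter F w m) - ht k (iter F w m) := by ring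
    have h5 : ((d : ℤ) ^ M - 1) * (B * (Module.finrank K L : ℤ)) =
        B * ((d : ℤ) ^ M - 1) * (Module.finrank K L : ℤ) := by ring
    rw [h4, h5]
    linarith
  exact le_of_mul_le_mul_left h3 (by linarith)

end Pool.Agent.Helper63.TN
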