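import Pool.Agent.Helper38.TNA.CaseA

/-!
# Curves with many periodic points
-/

set_option autoImplicit false

namespace Pool.Agent.Helper63.TN

open MvPolynomial
open Pool.Agent.Helper16 (Place IsFunctionField)
open Pool.Agent.Helper36 (step iter)
open Pool.Agent.Helper38.TQ
open Pool.Agent.Helper30.TKN

variable {ν : ℕ} {k K : Type} [Field k] [Field K] [Algebra k K]

/-- On a curve which is not periodic but contains many periodic points there are only finitely
many points of an orbit of unbounded height. -/
theorem caseA [IsAlgClosed k] [CharZero k] [Algebra K ℂ] (hK : IsFunctionField k K) {d : ℕ}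
    {F : Fin (ν + 1) → MvPolynomial (Fin (ν + 1)) K}
    (hF : IsEndo d fun i => map (algebraMap K ℂ) (F i))
    {I : Ideal (MvPolynomial (Fin (ν + 1)) K)} (hI : IsCurve I)
    (hnp : NonPer I F) (hmany : ManyPer k I F) {x : Fin (ν + 1) → K} (hx : x ≠ 0)
    (hunb : ∀ B : ℤ, ∃ n, B < ht k (iter F x n)) :
    {n | OnI I (iter F x n)}.Finite :=
  Pool.Agent.Helper38.TNA.caseA hK hF hI hnp hmany hx hunb

end Pool.Agent.Helper63.TN
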