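import Pool.Agent.Helper63.TN.CaseB
import Pool.Agent.Helper63.TN.StCaseA
import Pool.Agent.Helper63.TN.Van

/-!
# The curve is periodic
-/

set_option autoImplicit false

namespace Pool.Agent.Helper63.TN

open MvPolynomial
open Pool.Agent.Helper16 (Place IsFunctionField)
open Pool.Agent.Helper36 (step iter)
open Pool.Agent.Helper38.TQ
open Pool.Agent.Helper30.TKN

variable {ν : ℕ} {k K : Type} [Field k] [Field K] [Algebra k K]

/-- The heights of the points of the orbit tend to infinity. -/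
theorem ht_finite' [IsAlgClosed k] [Algebra K ℂ] (hK : IsFunctionField k K) {d : ℕ}
    {F : Fin (ν + 1) → MvPolynomial (Fin (ν + 1)) K}
    (hF : IsEndo d fun i => map (algebraMap K ℂ) (F i)) {x : Fin (ν + 1) → K} (hx : x ≠ 0)
    (hunb : ∀ B : ℤ, ∃ n, B < ht k (iter F x n)) (B : ℤ) :
    {n | ht k (iter F x n) ≤ B}.Finite := by
  obtain ⟨n₁, hn₁⟩ := ht_growth hK hF hx hunb (max B 0)
  refine (Set.finite_lt_nat n₁).subset fun n hn => ?_
  by_contra hcon
  have h1 := hn₁ n (not_lt.1 hcon)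
  have h2 : ht k (iter F x n) ≤ B := hn
  have h3 : B ≤ max B 0 := le_max_left _ _
  have h4 : (0 : ℤ) ≤ max B 0 := le_max_right _ _
  nlinarith

/-- The curve swept out by an orbit of unbounded height is periodic. -/
theorem not_nonPer [IsAlgClosed k] [CharZero k] [Algebra K ℂ] (hK : IsFunctionField k K) {d : ℕ}
    {F : Fin (ν + 1) → MvPolynomial (Fin (ν + 1)) K}
    (hF : IsEndo d fun i => map (algebraMap K ℂ) (F i)) {x : Fin (ν + 1) → K} (hx : x ≠ 0)
    (hunb : ∀ B : ℤ, ∃ n, B < ht k (iter F x n)) {U : Ultrafilter ℕ} (hU : Free U)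
    (hcurve : OnCurve U (iter F x)) : ¬ NonPer (van U (iter F x)) F := by
  classical
  intro hnp
  have hne : ∀ n, iter F x n ≠ 0 := fun n => iter_ne_zeroK hF hx n
  have hdist := distinct_of_unbounded hK hF hx hunb
  have hht := ht_finite' hK hF hx hunb
  have hI : IsCurve (van U (iter F x)) := van_curve (k := k) hne hcurve
  have hSU : {n | OnI (van U (iter F x)) (iter F x n)} ∈ (U : Filter ℕ) := van_on hne
  have hinf : {n | OnI (van U (iter F x)) (iter F x n)}.Infinite := by
    intro hfin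
    obtain ⟨n, hn1, hn2⟩ := Pool.Agent.Helper30.TP.ultra_exists_notMem hU hfin hSU
    exact hn2 hn1
  by_cases hmany : ManyPer k (van U (iter F x)) F
  · exact hinf (caseA hK hF hI hnp hmany hx hunb)
  · have hB := caseB hK hF hI hnp hmany hx (fun n n' h => hdist n n' h) hinf
    choose B hBf hB using hB
    obtain ⟨S', Γ, C, hS', -, hmain⟩ := trunc_curve hK (x := iter F x) hne
      (fun n n' h => hdist n n' h) hht hU hcurve 1 0
    have hfinB : (⋃ i ∈ Γ, B i).Finite := Set.Finite.biUnion Γ.finite_toSet fun i _ => hBf i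
    obtain ⟨n, hnS, hn⟩ := (hS'.sdiff ((Set.finite_le_nat (Γ.sup id)).union
      (hht (((⋃ i ∈ Γ, B i).ncard : ℕ) + C)))).nonempty
    rw [Set.mem_union, not_or] at hn
    obtain ⟨hn1, hn2⟩ := hn
    have hn1' : ¬ n ≤ Γ.sup id := hn1
    have hn2' : ¬ ht k (iter F x n) ≤ ((⋃ i ∈ Γ, B i).ncard : ℕ) + C := hn2
    obtain ⟨-, h1⟩ := hmain n hnS
    have hsub : {b : Place k K | ∃ i ∈ Γ, Same b (iter F x i) (iter F x n)} ⊆ ⋃ i ∈ Γ, B i := by
      rintro b ⟨i, hi, hb⟩
      have hin : i ≤ Γ.sup id := Finset.le_sup (f := id) hi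
      exact Set.mem_biUnion hi (hB i n (by omega) b hb)
    have h2 := Set.ncard_le_ncard hsub hfinB
    apply hn2'
    have h3 : (({b : Place k K | ∃ i ∈ Γ, Same b (iter F x i) (iter F x n)}.ncard : ℕ) : ℤ) ≤
        ((⋃ i ∈ Γ, B i).ncard : ℕ) := by exact_mod_cast h2
    push_cast at h1
    linarith

end Pool.Agent.Helper63.TN
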